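import Pool.Agent.Helper57.REC.Stmts1

set_option autoImplicit false

/-! `st_FRM`: finitely many places are ramified for a homomorphism with open kernel. -/

open NumberField

namespace Pool.Agent.Helper18.REC

open _root_.REC
open Pool.Agent.Helper13.ZL (Pl q HasMean)
open MU (Gal Zb Over CongPow)

/-- a nonzero algebraic integer divides a nonzero integer -/
theorem exists_int {F : Type} [Field F] (δ : Zb F) (hδ : δ ≠ 0) :
    ∃ c : ℤ, c ≠ 0 ∧ ∀ 𝔓 : Ideal (Zb F), δ ∈ 𝔓 → ((c : ℤ) : Zb F) ∈ 𝔓 := by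
  have h1 : (Ideal.span {δ}).comap (algebraMap ℤ (Zb F)) ≠ ⊥ :=
    Ideal.comap_ne_bot_of_integral_mem hδ (Ideal.mem_span_singleton_self δ)
      (Algebra.IsIntegral.isIntegral δ)
  obtain ⟨c, hc, hc0⟩ := Submodule.exists_mem_ne_zero_of_ne_bot h1
  refine ⟨c, hc0, fun 𝔓 h𝔓 => ?_⟩
  have h2 : algebraMap ℤ (Zb F) c ∈ Ideal.span {δ} := hc
  have h3 : Ideal.span {δ} ≤ 𝔓 := by
    rw [Ideal.span_singleton_le_iff_mem]; exact h𝔓
  have h4 := h3 h2
  simpa using h4

variable {F : Type} [Field F] [NumberField F]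

/-- a nonzero integer is in finitely many places -/
theorem finite_pl (c : ℤ) (hc : c ≠ 0) : {v : Pl F | ((c : ℤ) : 𝓞 F) ∈ v.asIdeal}.Finite := by
  have hc' : ((c : ℤ) : 𝓞 F) ≠ 0 := by exact_mod_cast hc
  have h1 : Ideal.span {((c : ℤ) : 𝓞 F)} ≠ 0 := by
    rw [Ne, Ideal.zero_eq_bot, Ideal.span_singleton_eq_bot]; exact hc'
  refine (Ideal.finite_factors h1).subset ?_
  intro v hv
  exact Ideal.dvd_span_singleton.mpr hv

/-- places for which an element of the inertia group can move `y` -/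
theorem fix_int (y : Zb F) : ∃ B : Set (Pl F), B.Finite ∧ ∀ v : Pl F, v ∉ B →
    ∀ 𝔓 : Ideal (Zb F), OverP v 𝔓 → ∀ σ : Gal F, CongPow 𝔓 1 σ →
      σ (y : AlgebraicClosure F) = y := by
  classical
  -- integers for the differences
  choose! c hc0 hc using fun (δ : Zb F) => exists_int (F := F) δ
  let Δ : Set (Zb F) := {δ | δ ≠ 0 ∧ ∃ σ : Gal F, (δ : AlgebraicClosure F) = σ y - y}
  have hΔ : Δ.Finite := by
    have h1 : ((minpoly F (y : AlgebraicClosure F)).rootSet (AlgebraicClosure F)).Finite :=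
      Polynomial.rootSet_finite _ _
    have h2 : Set.InjOn (fun δ : Zb F => (δ : AlgebraicClosure F) + y) Δ := by
      intro a _ b _ hab
      exact Subtype.ext (add_right_cancel hab)
    refine Set.Finite.of_finite_image (h1.subset ?_) h2
    rintro _ ⟨δ, ⟨_, σ, hσ⟩, rfl⟩
    have h3 : (δ : AlgebraicClosure F) + y = σ y := by rw [hσ]; ring
    simp only [h3]
    have hy : IsIntegral F (y : AlgebraicClosure F) := Algebra.IsIntegral.isIntegral _
    rw [Polynomial.mem_rootSet]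
    refine ⟨minpoly.ne_zero hy, ?_⟩
    rw [Polynomial.aeval_algHom_apply, minpoly.aeval, map_zero]
  refine ⟨⋃ δ ∈ Δ, {v : Pl F | ((c δ : ℤ) : 𝓞 F) ∈ v.asIdeal},
    hΔ.biUnion (fun δ hδ => finite_pl _ (hc0 δ hδ.1)), ?_⟩
  intro v hv 𝔓 h𝔓 σ hσ
  by_contra hne
  have hint : IsIntegral ℤ (σ (y : AlgebraicClosure F)) := by
    have := y.2
    exact IsIntegral.map (σ.toAlgHom.restrictScalars ℤ) this
  let z : Zb F := ⟨σ y, hint⟩
  have hz : z - y ∈ 𝔓 := by
    have hz1 := hσ y z rfl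
    have e1 : y ^ 1 = y := pow_one y
    exact e1 ▸ hz1
  have hδ : z - y ∈ Δ := by
    refine ⟨?_, σ, rfl⟩
    intro h0
    apply hne
    have : z = y := sub_eq_zero.mp h0
    exact congrArg Subtype.val this
  have h1 := hc (z - y) hδ.1 𝔓 hz
  have h2 : ((c (z - y) : ℤ) : 𝓞 F) ∈ v.asIdeal := by
    refine (h𝔓.2 _ _ ?_).mp h1
    simp
  exact hv (Set.mem_biUnion hδ h2)

theorem st_FRM : ST_FRM := by
  classical
  intro F _ _ A _ χ hχ
  have h1 : (χ.ker : Set (Gal F)) ∈ nhds (1 : Gal F) := hχ.mem_nhds (one_mem χ.ker)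
  rw [krullTopology_mem_nhds_one_iff] at h1
  obtain ⟨E, hE, hker⟩ := h1
  let b := Module.finBasis F E
  -- integral multiples
  have h2 : ∀ i, ∃ (n : ℤ) (y : Zb F), n ≠ 0 ∧
      (y : AlgebraicClosure F) = (n : AlgebraicClosure F) * ((b i : E) : AlgebraicClosure F) := by
    intro i
    have h3 : IsAlgebraic ℤ ((b i : E) : AlgebraicClosure F) := by
      have : Algebra.IsAlgebraic ℚ (AlgebraicClosure F) := Algebra.IsAlgebraic.trans ℚ F _
      have : IsAlgebraic ℚ ((b i : E) : AlgebraicClosure F) := Algebra.IsAlgebraic.isAlgebraic _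
      exact (IsFractionRing.isAlgebraic_iff ℤ ℚ (AlgebraicClosure F)).mpr this
    obtain ⟨n, hn, hy⟩ := h3.exists_integral_multiple
    refine ⟨n, ⟨n • ((b i : E) : AlgebraicClosure F), hy⟩, hn, ?_⟩
    simp
  choose n y hn hy using h2
  choose B hB hfix using fun i => fix_int (y i)
  have hBf : (⋃ i, B i).Finite := Set.finite_iUnion hB
  refine ⟨hBf.toFinset, fun v hv 𝔓 h𝔓 σ hσ => ?_⟩
  have hv' : ∀ i, v ∉ B i := by
    intro i hi
    apply hv
    rw [Set.Finite.mem_toFinset]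
    exact Set.mem_iUnion_of_mem i hi
  have hb : ∀ i, σ ((b i : E) : AlgebraicClosure F) = ((b i : E) : AlgebraicClosure F) := by
    intro i
    have h3 := hfix i v (hv' i) 𝔓 h𝔓 σ hσ
    rw [hy i, map_mul, map_intCast] at h3
    exact mul_left_cancel₀ (by exact_mod_cast hn i) h3
  have hmem : σ ∈ E.fixingSubgroup := by
    rw [IntermediateField.mem_fixingSubgroup_iff]
    intro x hx
    have h5 : (⟨x, hx⟩ : E) = ∑ i, b.repr ⟨x, hx⟩ i • b i := (b.sum_repr _).symm
    have h6 : x = ∑ i, algebraMap F (AlgebraicClosure F) (b.repr ⟨x, hx⟩ i) *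
        ((b i : E) : AlgebraicClosure F) := by
      have h7 := congrArg (fun t : E => E.val t) h5
      simp only [map_sum] at h7
      refine Eq.trans (show x = E.val ⟨x, hx⟩ from rfl) (h7.trans ?_)
      refine Finset.sum_congr rfl fun i _ => ?_
      rw [Algebra.smul_def, map_mul]
      rfl
    rw [h6, map_sum]
    refine Finset.sum_congr rfl fun i _ => ?_
    rw [map_mul, hb i, AlgEquiv.commutes]
  exact MonoidHom.mem_ker.mp (hker hmem)

end Pool.Agent.Helper18.REC
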