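import Pool.Agent.Helper27.REC.StmtsT
import Pool.Agent.Helper43.MU.Sub

/-!
KGL (MP_78e9a5_nt): Lie algebras of matrices which contain the diagonal matrices and are normalised
by a primitive group.   [helper18]
-/

set_option autoImplicit false

open Matrix

namespace REC

namespace KGLx

section

variable {K : Type} [Field K] {n : ℕ} (H : Submodule K (Matrix (Fin n) (Fin n) K))

/-- `single y x 1` is in `H` -/
def E (y x : Fin n) : Prop := single y x (1 : K) ∈ H

/-- the span of the basis vectors reached from `x` -/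
def Wx (x : Fin n) : Submodule K (Fin n → K) where
  carrier := {v | ∀ y, ¬ E H y x → v y = 0}
  zero_mem' := fun _ _ => rfl
  add_mem' := fun {u v} hu hv y hy => by rw [Pi.add_apply, hu y hy, hv y hy, add_zero]
  smul_mem' := fun c u hu y hy => by rw [Pi.smul_apply, hu y hy, smul_zero]

variable {H}

theorem mem_Wx {x : Fin n} {v : Fin n → K} : v ∈ Wx H x ↔ ∀ y, ¬ E H y x → v y = 0 := Iff.rfl

theorem single_mem_Wx {x y : Fin n} : (Pi.single y 1 : Fin n → K) ∈ Wx H x ↔ E H y x := by
  rw [mem_Wx]
  constructor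
  · intro h
    by_contra h1
    have h2 := h y h1
    rw [Pi.single_eq_same] at h2
    exact one_ne_zero h2
  · intro h z hz
    refine Pi.single_eq_of_ne ?_ _
    rintro rfl
    exact hz h

theorem E_of_ne (hc : ∀ X ∈ H, ∀ x y, x ≠ y → single x y (X x y) ∈ H) {X : Matrix (Fin n) (Fin n) K}
    (hX : X ∈ H) {x y : Fin n} (hxy : x ≠ y) (h : X x y ≠ 0) : E H x y := by
  have h1 := H.smul_mem (X x y)⁻¹ (hc X hX x y hxy)
  rw [smul_single, smul_eq_mul, inv_mul_cancel₀ h] at h1
  exact h1

theorem E_trans (hd : ∀ x, single x x (1 : K) ∈ H) (hb : ∀ X ∈ H, ∀ Y ∈ H, X * Y - Y * X ∈ H)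
    {x y z : Fin n} (h1 : E H z y) (h2 : E H y x) : E H z x := by
  by_cases hzx : z = x
  · subst hzx
    exact hd z
  · have h3 := hb _ h1 _ h2
    rw [single_mul_single_same, single_mul_single_of_ne _ _ _ _ (Ne.symm hzx), sub_zero,
      mul_one] at h3
    exact h3

theorem Wx_stable (hd : ∀ x, single x x (1 : K) ∈ H) (hb : ∀ X ∈ H, ∀ Y ∈ H, X * Y - Y * X ∈ H)
    (hc : ∀ X ∈ H, ∀ x y, x ≠ y → single x y (X x y) ∈ H) (x : Fin n)
    {X : Matrix (Fin n) (Fin n) K} (hX : X ∈ H) {v : Fin n → K} (hv : v ∈ Wx H x) :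
    X *ᵥ v ∈ Wx H x := by
  intro z hz
  show ∑ y, X z y * v y = 0
  refine Finset.sum_eq_zero fun y _ => ?_
  by_contra h
  have h1 : X z y ≠ 0 := left_ne_zero_of_mul h
  have h2 : v y ≠ 0 := right_ne_zero_of_mul h
  have h3 : E H y x := by
    by_contra h4
    exact h2 (hv y h4)
  refine hz ?_
  by_cases h5 : z = y
  · subst h5
    exact h3
  · exact E_trans hd hb (E_of_ne hc hX h5 h1) h3

theorem Wx_le (hd : ∀ x, single x x (1 : K) ∈ H) (U : Submodule K (Fin n → K))
    (hU : ∀ X ∈ H, ∀ v ∈ U, X *ᵥ v ∈ U) {x : Fin n} {v : Fin n → K} (hv : v ∈ U) (hx : v x ≠ 0) :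
    Wx H x ≤ U := by
  have key : ∀ y, E H y x → (Pi.single y 1 : Fin n → K) ∈ U := by
    intro y hy
    have h1 := hU _ (hd x) v hv
    have h2 := hU _ hy _ h1
    have h3 : single y x (1 : K) *ᵥ (single x x (1 : K) *ᵥ v) = v x • (Pi.single y 1 : Fin n → K) := by
      ext z
      rw [mulVec_mulVec, single_mul_single_same, mul_one]
      by_cases hz : z = y
      · subst hz
        simp [Matrix.mulVec, dotProduct, Matrix.single_apply]
      · simp [Matrix.mulVec, dotProduct, hz, Ne.symm hz]
    rw [h3] at h2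
    have h4 := U.smul_mem (v x)⁻¹ h2
    rwa [smul_smul, inv_mul_cancel₀ hx, one_smul] at h4
  intro u hu
  have h5 : u = ∑ i, u i • (Pi.single i 1 : Fin n → K) := by
    ext i
    rw [Finset.sum_apply]
    simp [Pi.single_apply]
  rw [h5]
  refine Submodule.sum_mem _ fun i _ => ?_
  by_cases hi : E H i x
  · exact U.smul_mem _ (key i hi)
  · rw [hu i hi, zero_smul]
    exact U.zero_mem

end

end KGLx

open KGLx in
theorem KGL : ST_KGL := by
  classical
  intro G K _ _ n r hr H hb hd hc hG
  obtain ⟨hirr, hprm⟩ := hr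
  rcases Nat.eq_zero_or_pos n with hn | hn
  · subst hn
    rw [eq_top_iff]
    intro X _
    rw [Subsingleton.elim X 0]
    exact H.zero_mem
  -- the minimal dimension
  have : Nonempty (Fin n) := ⟨⟨0, hn⟩⟩
  obtain ⟨x₀, hx₀⟩ := Finite.exists_min fun x : Fin n => Module.finrank K (Wx H x)
  set d := Module.finrank K (Wx H x₀) with hddef
  have hinj : ∀ g : G, Function.Injective (Matrix.mulVecLin (r g)) := by
    intro g
    refine Function.LeftInverse.injective (g := Matrix.mulVecLin (r g⁻¹)) fun v => ?_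
    rw [mulVecLin_apply, mulVecLin_apply, mulVec_mulVec, ← map_mul, inv_mul_cancel, map_one,
      one_mulVec]
  have hmap : ∀ (g : G) (x : Fin n), Module.finrank K (Wx H x) = d → ∃ i,
      Module.finrank K (Wx H i) = d ∧ (Wx H x).map (Matrix.mulVecLin (r g)) = Wx H i := by
    intro g x hx
    have h1 : (Pi.single x 1 : Fin n → K) ∈ Wx H x := single_mem_Wx.2 (hd x)
    have h2 : ∃ i, (r g *ᵥ (Pi.single x 1 : Fin n → K)) i ≠ 0 := by
      by_contra hcon
      push Not at hcon
      have h3 : Matrix.mulVecLin (r g) (Pi.single x 1 : Fin n → K) = Matrix.mulVecLin (r g) 0 := by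
        rw [map_zero]
        exact funext hcon
      have h4 := congrFun (hinj g h3) x
      rw [Pi.single_eq_same] at h4
      exact one_ne_zero h4
    obtain ⟨i, hi⟩ := h2
    have h3 : Wx H i ≤ (Wx H x).map (Matrix.mulVecLin (r g)) := by
      refine Wx_le hd _ ?_ (v := r g *ᵥ (Pi.single x 1 : Fin n → K)) ⟨_, h1, rfl⟩ hi
      rintro X hX _ ⟨v, hv, rfl⟩
      have h5 := hG g⁻¹ X hX
      rw [inv_inv] at h5
      refine ⟨_, Wx_stable hd hb hc x h5 hv, ?_⟩
      rw [mulVecLin_apply, mulVecLin_apply, mulVec_mulVec, mulVec_mulVec, ← mul_assoc, ← mul_assoc,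
        ← map_mul, mul_inv_cancel, map_one, one_mul]
    have h4 : Module.finrank K ((Wx H x).map (Matrix.mulVecLin (r g))) = d := by
      rw [← hx]
      exact (LinearEquiv.finrank_eq (Submodule.equivMapOfInjective _ (hinj g) _)).symm
    have h5 : Wx H i = (Wx H x).map (Matrix.mulVecLin (r g)) :=
      Submodule.eq_of_le_of_finrank_le h3 (by rw [h4]; exact hx₀ i)
    exact ⟨i, by rw [h5, h4], h5.symm⟩
  -- two minimal subspaces with a common index are equal
  have hcom : ∀ x y z, Module.finrank K (Wx H x) = d → Module.finrank K (Wx H y) = d →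
      E H z x → E H z y → Wx H x = Wx H y := by
    intro x y z hx hy hzx hzy
    have h1 : Wx H z ≤ Wx H x := by
      refine Wx_le hd _ (fun X hX v hv => Wx_stable hd hb hc x hX hv) (single_mem_Wx.2 hzx) ?_
      rw [Pi.single_eq_same]
      exact one_ne_zero
    have h2 : Wx H z ≤ Wx H y := by
      refine Wx_le hd _ (fun X hX v hv => Wx_stable hd hb hc y hX hv) (single_mem_Wx.2 hzy) ?_
      rw [Pi.single_eq_same]
      exact one_ne_zero
    rw [← Submodule.eq_of_le_of_finrank_le h1 (by rw [hx]; exact hx₀ z),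
      ← Submodule.eq_of_le_of_finrank_le h2 (by rw [hy]; exact hx₀ z)]
  -- the set of the minimal subspaces
  let S : Set (Submodule K (Fin n → K)) := {U | ∃ x, Module.finrank K (Wx H x) = d ∧ U = Wx H x}
  have hSfin : S.Finite := by
    refine (Set.finite_range fun x => Wx H x).subset ?_
    rintro _ ⟨x, -, rfl⟩
    exact ⟨x, rfl⟩
  let _ : Fintype S := hSfin.fintype
  let e := (Fintype.equivFin S).symm
  have hN : Fintype.card S ≤ 1 := by
    refine hprm _ (fun j => (e j : Submodule K (Fin n → K))) ?_ ?_ ?_ ?_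
    · intro g j
      obtain ⟨x, hx, hxe⟩ := (e j).2
      obtain ⟨i, hi, hie⟩ := hmap g x hx
      refine ⟨e.symm ⟨Wx H i, i, hi, rfl⟩, fun v hv => ?_⟩
      rw [Equiv.apply_symm_apply]
      show r g *ᵥ v ∈ Wx H i
      rw [← hie]
      rw [hxe] at hv
      exact ⟨v, hv, rfl⟩
    · intro j
      obtain ⟨x, hx, hxe⟩ := (e j).2
      rw [Submodule.disjoint_def]
      intro v hv hv2
      let W' : Submodule K (Fin n → K) :=
        { carrier := {u | ∀ a, E H a x → u a = 0}
          zero_mem' := fun _ _ => rfl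
          add_mem' := fun {x y} hx hy a ha => by rw [Pi.add_apply, hx a ha, hy a ha, add_zero]
          smul_mem' := fun c x hx a ha => by rw [Pi.smul_apply, hx a ha, smul_zero] }
      have h1 : (⨆ (i) (_ : i ≠ j), (e i : Submodule K (Fin n → K))) ≤ W' := by
        refine iSup₂_le fun i hij u hu a ha => ?_
        obtain ⟨y, hy, hye⟩ := (e i).2
        rw [hye] at hu
        refine hu a fun hay => hij (e.injective (Subtype.ext ?_))
        rw [hye, hxe]
        exact hcom y x a hy hx hay ha
      ext a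
      by_cases ha : E H a x
      · exact h1 hv2 a ha
      · have hv' : v ∈ (e j : Submodule K (Fin n → K)) := hv
        rw [hxe] at hv'
        exact hv' a ha
    · rcases MU.irr_stable hirr (⨆ j, (e j : Submodule K (Fin n → K))) (by
        intro g v hv
        have h1 : (⨆ j, (e j : Submodule K (Fin n → K))) ≤
            (⨆ j, (e j : Submodule K (Fin n → K))).comap (Matrix.mulVecLin (r g)) := by
          refine iSup_le fun j => ?_
          obtain ⟨x, hx, hxe⟩ := (e j).2
          obtain ⟨i, hi, hie⟩ := hmap g x hx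
          intro u hu
          rw [Submodule.mem_comap]
          have h2 : ((e (e.symm ⟨Wx H i, i, hi, rfl⟩) : S) : Submodule K (Fin n → K)) ≤
            ⨆ j, (e j : Submodule K (Fin n → K)) := le_iSup (fun j => (e j : Submodule K (Fin n → K))) _
          rw [Equiv.apply_symm_apply] at h2
          refine h2 ?_
          show mulVecLin (r g) u ∈ Wx H i
          rw [← hie]
          rw [hxe] at hu
          exact ⟨u, hu, rfl⟩
        exact h1 hv) with h | h
      · exfalso
        have h1 : ((e (e.symm ⟨Wx H x₀, x₀, rfl, rfl⟩) : S) : Submodule K (Fin n → K)) ≤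
            ⨆ j, (e j : Submodule K (Fin n → K)) := le_iSup (fun j => (e j : Submodule K (Fin n → K))) _
        rw [Equiv.apply_symm_apply, h] at h1
        have h2 : (Pi.single x₀ 1 : Fin n → K) ∈ (⊥ : Submodule K (Fin n → K)) :=
          h1 (single_mem_Wx.2 (hd x₀))
        rw [Submodule.mem_bot] at h2
        have h3 := congrFun h2 x₀
        rw [Pi.single_eq_same] at h3
        exact one_ne_zero h3
      · exact h
    · intro j hj
      obtain ⟨x, hx, hxe⟩ := (e j).2
      rw [hxe] at hj
      have h2 : (Pi.single x 1 : Fin n → K) ∈ (⊥ : Submodule K (Fin n → K)) := by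
        rw [← hj]
        exact single_mem_Wx.2 (hd x)
      rw [Submodule.mem_bot] at h2
      have h3 := congrFun h2 x
      rw [Pi.single_eq_same] at h3
      exact one_ne_zero h3
  have hone : ∀ x, Module.finrank K (Wx H x) = d → Wx H x = Wx H x₀ := by
    intro x hx
    have h1 := Fintype.card_le_one_iff.1 hN ⟨Wx H x, x, hx, rfl⟩ ⟨Wx H x₀, x₀, rfl, rfl⟩
    exact congrArg Subtype.val h1
  have htop : Wx H x₀ = ⊤ := by
    rcases MU.irr_stable hirr (Wx H x₀) (by
      intro g v hv
      obtain ⟨i, hi, hie⟩ := hmap g x₀ rfl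
      rw [hone i hi] at hie
      show mulVecLin (r g) v ∈ Wx H x₀
      rw [← hie]
      exact ⟨v, hv, rfl⟩) with h | h
    · exfalso
      have h2 : (Pi.single x₀ 1 : Fin n → K) ∈ (⊥ : Submodule K (Fin n → K)) := by
        rw [← h]
        exact single_mem_Wx.2 (hd x₀)
      rw [Submodule.mem_bot] at h2
      have h3 := congrFun h2 x₀
      rw [Pi.single_eq_same] at h3
      exact one_ne_zero h3
    · exact h
  have hall : ∀ x y, E H y x := by
    intro x y
    have h1 : Wx H x = ⊤ := by
      refine Submodule.eq_top_of_finrank_eq (le_antisymm (Submodule.finrank_le _) ?_)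
      have h2 := hx₀ x
      rw [hddef] at h2
      have h3 : Module.finrank K (Wx H x₀) = Module.finrank K (Fin n → K) := by
        rw [htop, finrank_top]
      rw [← h3]
      exact h2
    rw [← single_mem_Wx, h1]
    exact Submodule.mem_top
  rw [eq_top_iff]
  intro X _
  rw [matrix_eq_sum_single X]
  refine Submodule.sum_mem _ fun i _ => Submodule.sum_mem _ fun j _ => ?_
  have h3 : single i j (X i j) = X i j • single i j (1 : K) := by
    rw [smul_single, smul_eq_mul, mul_one]
  rw [h3]
  exact H.smul_mem _ (hall j i)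

end REC
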