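import Pool.Agent.Helper57.REC.Defs

set_option autoImplicit false

/-! Norms of totally positive elements, congruences of norms. -/

open NumberField

namespace Pool.Agent.Helper18.REC

open _root_.REC
open Pool.Agent.Helper13.ZL (Pl q)

variable {F : Type} [Field F] [NumberField F]

/-- the norm of a totally positive element is positive -/
theorem norm_pos_of_totPos (x : F) (hx : x ≠ 0) (ht : TotPos x) : 0 < Algebra.norm ℚ x := by
  classical
  have h1 : ((Algebra.norm ℚ x : ℚ) : ℂ) = ∏ φ : F →+* ℂ, φ x := by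
    have h2 := Algebra.norm_eq_prod_embeddings ℚ ℂ x
    rw [eq_ratCast] at h2
    rw [h2]
    exact (Fintype.prod_equiv (RingHom.equivRatAlgHom F ℂ) (fun f => f x) (fun φ => φ x)
      fun _ => by simp [RingHom.equivRatAlgHom_apply]).symm
  rw [← Finset.prod_fiberwise Finset.univ InfinitePlace.mk (fun φ : F →+* ℂ => φ x)] at h1
  have h3 : ∀ w : InfinitePlace F, ∃ r : ℝ, 0 < r ∧
      ∏ φ : F →+* ℂ with InfinitePlace.mk φ = w, φ x = (r : ℂ) := by
    intro w
    have hset : (Finset.univ.filter fun φ : F →+* ℂ => InfinitePlace.mk φ = w) =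
        {w.embedding, ComplexEmbedding.conjugate w.embedding} := by
      ext φ
      simp only [Finset.mem_filter, Finset.mem_univ, true_and, Finset.mem_insert,
        Finset.mem_singleton]
      constructor
      · intro h
        have h4 : InfinitePlace.mk w.embedding = InfinitePlace.mk φ := by
          rw [InfinitePlace.mk_embedding, h]
        rcases InfinitePlace.mk_eq_iff.mp h4 with h5 | h5
        · exact Or.inl h5.symm
        · exact Or.inr h5.symm
      · rintro (h | h)
        · rw [h, InfinitePlace.mk_embedding]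
        · rw [h, InfinitePlace.mk_conjugate_eq, InfinitePlace.mk_embedding]
    rw [hset]
    by_cases hr : ComplexEmbedding.IsReal w.embedding
    · refine ⟨hr.embedding x, ht _, ?_⟩
      have h5 : ComplexEmbedding.conjugate w.embedding = w.embedding :=
        ComplexEmbedding.isReal_iff.mp hr
      rw [h5, Finset.pair_eq_singleton, Finset.prod_singleton]
      exact (hr.coe_embedding_apply x).symm
    · refine ⟨Complex.normSq (w.embedding x), ?_, ?_⟩
      · rw [Complex.normSq_pos]
        exact (map_ne_zero _).mpr hx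
      · have h5 : w.embedding ≠ ComplexEmbedding.conjugate w.embedding := by
          intro h
          exact hr (ComplexEmbedding.isReal_iff.mpr h.symm)
        rw [Finset.prod_pair h5, ComplexEmbedding.conjugate_coe_eq, Complex.mul_conj]
  choose r hr0 hr using h3
  simp only [hr] at h1
  have h6 : ((Algebra.norm ℚ x : ℚ) : ℝ) = ∏ w, r w := by
    have : (((Algebra.norm ℚ x : ℚ) : ℝ) : ℂ) = ((∏ w, r w : ℝ) : ℂ) := by
      push_cast
      exact h1
    exact_mod_cast this
  have h7 : (0 : ℝ) < ((Algebra.norm ℚ x : ℚ) : ℝ) := by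
    rw [h6]
    exact Finset.prod_pos fun w _ => hr0 w
  exact_mod_cast h7

/-- the integral norm of a totally positive integer is positive -/
theorem norm_int_pos (x : 𝓞 F) (hx : x ≠ 0) (ht : TotPos (x : F)) : 0 < Algebra.norm ℤ x := by
  have h1 := norm_pos_of_totPos (x : F) (by
    intro h
    apply hx
    exact RingOfIntegers.coe_eq_zero_iff.mp h) ht
  have h2 : ((Algebra.norm ℤ x : ℤ) : ℚ) = Algebra.norm ℚ (x : F) := Algebra.coe_norm_int x
  rw [← h2] at h1
  exact_mod_cast h1

/-- congruent integers have congruent norms -/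
theorem norm_congr (m : ℕ) (a b : 𝓞 F) (h : a - b ∈ Ideal.span {(m : 𝓞 F)}) :
    ((Algebra.norm ℤ a : ℤ) : ZMod m) = ((Algebra.norm ℤ b : ℤ) : ZMod m) := by
  classical
  obtain ⟨z, hz⟩ := Ideal.mem_span_singleton'.mp h
  have ha : a = b + (m : ℤ) • z := by
    have : a = b + (a - b) := by ring
    rw [this, ← hz]
    simp [mul_comm]
  let bs := RingOfIntegers.basis F
  rw [Algebra.norm_eq_matrix_det bs, Algebra.norm_eq_matrix_det bs]
  have h1 : ∀ M : Matrix (Module.Free.ChooseBasisIndex ℤ (𝓞 F)) (Module.Free.ChooseBasisIndex ℤ (𝓞 F)) ℤ,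
      ((M.det : ℤ) : ZMod m) = (M.map (Int.castRingHom (ZMod m))).det := by
    intro M
    exact (RingHom.map_det (Int.castRingHom (ZMod m)) M)
  rw [h1, h1, ha, map_add, map_smul]
  congr 1
  ext i j
  rw [Matrix.map_apply, Matrix.add_apply, Matrix.smul_apply, smul_eq_mul, map_add, map_mul,
    Matrix.map_apply]
  simp

/-- an element which is close to `0` at all places over `m` is divisible by `m` -/
theorem exists_div (m : ℕ) (hm : m ≠ 0) (B : Finset (Pl F))
    (hB : ∀ v : Pl F, (m : 𝓞 F) ∈ v.asIdeal → v ∈ B) :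
    ∃ N : ℕ, ∀ x : 𝓞 F, (∀ v ∈ B, x ∈ v.asIdeal ^ N) → x ∈ Ideal.span {(m : 𝓞 F)} := by
  classical
  have hm0 : (m : 𝓞 F) ≠ 0 := by exact_mod_cast hm
  have h1 : (∏ v ∈ B, v.asIdeal) ≤ (Ideal.span {(m : 𝓞 F)}).radical := by
    rw [Ideal.radical_eq_sInf]
    refine le_sInf ?_
    rintro P ⟨hP1, hP2⟩
    have hP3 : P ≠ ⊥ := by
      rintro rfl
      apply hm0
      have := hP1 (Ideal.mem_span_singleton_self (m : 𝓞 F))
      simpa using this
    have h2 : (⟨P, hP2, hP3⟩ : Pl F) ∈ B := by
      apply hB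
      exact hP1 (Ideal.mem_span_singleton_self (m : 𝓞 F))
    exact Ideal.prod_le_inf.trans (Finset.inf_le h2)
  obtain ⟨N, hN⟩ := Ideal.exists_pow_le_of_le_radical_of_fg h1
    (IsNoetherian.noetherian _)
  refine ⟨N, fun x hx => hN ?_⟩
  rw [← Finset.prod_pow, ← IsDedekindDomain.inf_pow_eq_prod_of_prime B (fun v => v.asIdeal)
    (fun _ => N) (fun v _ => v.prime) (fun v _ v' _ h h' => h (IsDedekindDomain.HeightOneSpectrum.ext h'))]
  rw [Submodule.mem_finsetInf]
  exact hx

/-- inverse modulo a power of a place -/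
theorem exists_inv (v : Pl F) (N : ℕ) (x : 𝓞 F) (hx : x ∉ v.asIdeal) :
    ∃ a : 𝓞 F, a * x - 1 ∈ v.asIdeal ^ N := by
  obtain ⟨y, i, hi, h⟩ := v.isMaximal.exists_inv hx
  have h1 : IsCoprime (Ideal.span {x}) v.asIdeal := by
    rw [Ideal.isCoprime_iff_exists]
    exact ⟨y * x, Ideal.mul_mem_left _ _ (Ideal.mem_span_singleton_self x), i, hi, h⟩
  have h2 : IsCoprime (Ideal.span {x}) (v.asIdeal ^ N) := h1.pow_right
  rw [Ideal.isCoprime_iff_exists] at h2
  obtain ⟨z, hz, j, hj, h3⟩ := h2
  obtain ⟨a, ha⟩ := Ideal.mem_span_singleton'.mp hz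
  refine ⟨a, ?_⟩
  rw [ha]
  have : z - 1 = -j := by rw [← h3]; ring
  rw [this]
  exact neg_mem hj

end Pool.Agent.Helper18.REC
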