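import Pool.Agent.Helper57.REC.Stmts5
import Pool.Agent.Helper18.REC.NormLem

set_option autoImplicit false

/-! `st_LAR0`: the local-global formula. -/

open scoped Classical
open NumberField

namespace Pool.Agent.Helper18.REC

open _root_.REC
open Pool.Agent.Helper13.ZL (Pl q HasMean)
open MU (Gal Zb Over CongPow cyc)

theorem open_fiber (l k : ℕ) [Fact l.Prime] (a : ℤ_[l]) :
    IsOpen {x : ℤ_[l] | PadicInt.toZModPow k x = PadicInt.toZModPow k a} := by
  have h1 : {x : ℤ_[l] | PadicInt.toZModPow k x = PadicInt.toZModPow k a} =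
      Metric.closedBall a ((l : ℝ) ^ (-(k : ℤ))) := by
    ext x
    rw [Set.mem_ofPred_eq, Metric.mem_closedBall, dist_eq_norm,
      PadicInt.norm_le_pow_iff_mem_span_pow, ← PadicInt.ker_toZModPow, RingHom.mem_ker, map_sub,
      sub_eq_zero]
  rw [h1]
  refine IsUltrametricDist.isOpen_closedBall _ ?_
  have hl : (0 : ℝ) < l := by exact_mod_cast (Fact.out : l.Prime).pos
  exact (zpow_pos hl _).ne'

/-- the kernel of the cyclotomic character modulo `l ^ k` is open -/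
theorem cyk_open (F : Type) [Field F] [NumberField F] (l : ℕ) [Fact l.Prime] (k : ℕ) :
    IsOpen ((cyk F l k).ker : Set (Gal F)) := by
  have hc : Continuous (fun s : Gal F => cyc l F s) :=
    cyclotomicCharacter.continuous l F (AlgebraicClosure F)
  have hc2 : Continuous (fun g : Gal F => ((cyc l F g : ℤ_[l]ˣ) : ℤ_[l])) :=
    Units.continuous_val.comp hc
  have h1 : ((cyk F l k).ker : Set (Gal F)) = (fun g : Gal F => ((cyc l F g : ℤ_[l]ˣ) : ℤ_[l])) ⁻¹'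
        {x : ℤ_[l] | PadicInt.toZModPow k x = PadicInt.toZModPow k 1} := by
    ext g
    rw [SetLike.mem_coe, MonoidHom.mem_ker, Set.mem_preimage, Set.mem_ofPred_eq, map_one,
      ← Units.val_inj]
    rfl
  rw [h1]
  exact (open_fiber l k 1).preimage hc2

variable {F : Type} [Field F] [NumberField F]

/-- the value of the cyclotomic character modulo `l ^ k` at a Frobenius element -/
theorem cyk_frob (hOVP : ST_OVP) (hCYC : MU.ST_CYC) (l : ℕ) [Fact l.Prime] (k : ℕ) (v : Pl F)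
    (hv : (l : 𝓞 F) ∉ v.asIdeal) (𝔓 : Ideal (Zb F)) (h𝔓 : OverP v 𝔓) (j : ℕ) (σ : Gal F)
    (hσ : CongPow 𝔓 (q v ^ j) σ) :
    ((cyk F l k σ : (ZMod (l ^ k))ˣ) : ZMod (l ^ k)) = ((q v : ℕ) : ZMod (l ^ k)) ^ j := by
  obtain ⟨p, f, hp, hf, hq, hover, hpv⟩ := (hOVP F).2.2.2.1 v 𝔓 h𝔓
  have hpl : p ≠ l := by
    rintro rfl
    exact hv hpv
  have h1 := hCYC F F l p hp hpl 𝔓 hover (f * j) σ (by rw [pow_mul, ← hq]; exact hσ)
  have h2 : ((cyk F l k σ : (ZMod (l ^ k))ˣ) : ZMod (l ^ k)) =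
      PadicInt.toZModPow k ((cyc l F σ : ℤ_[l]ˣ) : ℤ_[l]) := rfl
  rw [h2, h1, map_pow, map_natCast, pow_mul, hq, Nat.cast_pow]

/-- the norm of a place away from `l` is a unit modulo `l ^ k` -/
theorem isUnit_q (hOVP : ST_OVP) (l : ℕ) [Fact l.Prime] (k : ℕ) (v : Pl F)
    (hv : (l : 𝓞 F) ∉ v.asIdeal) : IsUnit ((q v : ℕ) : ZMod (l ^ k)) := by
  obtain ⟨𝔓, h𝔓⟩ := (hOVP F).1 v
  obtain ⟨p, f, hp, hf, hq, hover, hpv⟩ := (hOVP F).2.2.2.1 v 𝔓 h𝔓
  have hpl : p ≠ l := by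
    rintro rfl
    exact hv hpv
  rw [ZMod.isUnit_iff_coprime, hq]
  exact Nat.Coprime.pow _ _ ((Nat.coprime_primes hp Fact.out).mpr hpl)

/-- the formula at one place -/
theorem at_place (hREC : ST_REC) (hEV : ST_EV) (hFRV : ST_FRV) (hOVP : ST_OVP)
    (hCYC : MU.ST_CYC) (l : ℕ) [Fact l.Prime] (k : ℕ) (A : Type) [CommGroup A]
    (ε : Gal F →* A) (c : (ZMod (l ^ k))ˣ →* A) (e : Pl F → ℤ) (Bl : Finset (Pl F))
    (φ : Pl F → A) (h : IsCyE l k ε c e Bl φ) (v₀ : Pl F) (hv₀ : v₀ ∈ Bl) :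
    ∃ N : ℕ, 0 < N ∧ ∀ x : 𝓞 F, Ray (Bl.erase v₀) N x → x ∉ v₀.asIdeal →
      ∀ u : (ZMod (l ^ k))ˣ, ((u : (ZMod (l ^ k))ˣ) : ZMod (l ^ k)) = (Algebra.norm ℤ x : ℤ) →
        ev φ (Ideal.span {x}) * c u ^ e v₀ = 1 := by
  classical
  set χ : Gal F →* A := ε * (c.comp (cyk F l k)) ^ (e v₀) with hχ
  have hχa : ∀ σ, χ σ = ε σ * c (cyk F l k σ) ^ e v₀ := fun σ => rfl
  have hopen : IsOpen (χ.ker : Set (Gal F)) := by
    have h1 : IsOpen ((ε.ker ⊓ (cyk F l k).ker : Subgroup (Gal F)) : Set (Gal F)) := by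
      rw [Subgroup.coe_inf]
      exact h.op.inter (cyk_open F l k)
    refine Subgroup.isOpen_mono ?_ h1
    rintro σ ⟨h2, h3⟩
    rw [MonoidHom.mem_ker, hχa, MonoidHom.mem_ker.mp h2, MonoidHom.mem_ker.mp h3]
    simp
  -- the value at `v₀`
  obtain ⟨a₀, ha₀⟩ := (hFRV F A χ v₀).1 (by
    intro 𝔓 h𝔓 σ hσ
    rw [hχa]
    exact h.exp v₀ hv₀ 𝔓 h𝔓 σ hσ)
  -- the units
  let U : Pl F → (ZMod (l ^ k))ˣ := fun v =>
    if hu : IsUnit ((q v : ℕ) : ZMod (l ^ k)) then hu.unit else 1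
  have hU : ∀ v, v ∉ Bl → ((U v : (ZMod (l ^ k))ˣ) : ZMod (l ^ k)) = ((q v : ℕ) : ZMod (l ^ k)) := by
    intro v hv
    have hu := isUnit_q hOVP l k v (fun h1 => hv ((h.pl v).mpr h1))
    simp only [U, dif_pos hu]
    exact hu.unit_spec
  let φ' : Pl F → A := fun v => if v = v₀ then a₀ else if v ∈ Bl then 1 else
    φ v * (c ^ e v₀) (U v)
  have hφ' : IsPhi χ (Bl.erase v₀) φ' := by
    constructor
    · intro v hv
      rw [Finset.mem_erase] at hv
      simp only [φ', if_neg hv.1, if_pos hv.2]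
    · intro v hv
      by_cases hvv : v = v₀
      · subst hvv
        simp only [φ', if_pos]
        exact ha₀
      · have hvB : v ∉ Bl := fun h1 => hv (Finset.mem_erase.mpr ⟨hvv, h1⟩)
        simp only [φ', if_neg hvv, if_neg hvB]
        intro 𝔓 h𝔓 j σ hσ
        have h1 := h.phi.2 v hvB 𝔓 h𝔓 j σ hσ
        have h2 := cyk_frob hOVP hCYC l k v (fun h1 => hvB ((h.pl v).mpr h1)) 𝔓 h𝔓 j σ hσ
        have h3 : cyk F l k σ = U v ^ j := by
          apply Units.ext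
          rw [h2, Units.val_pow_eq_pow_val, hU v hvB]
        have h4 : (c ^ e v₀) (U v) = c (U v) ^ e v₀ := rfl
        rw [hχa, h1, h3, h4, map_pow, mul_pow]
        congr 1
        rw [← zpow_natCast, ← zpow_natCast, ← zpow_mul, ← zpow_mul, mul_comm]
  obtain ⟨N, hN, hray⟩ := hREC F A χ hopen (Bl.erase v₀) φ' hφ'
  refine ⟨N, hN, fun x hx hxv u hu => ?_⟩
  have h1 := hray x hx
  obtain ⟨hx0, hxt, hxc⟩ := hx
  obtain ⟨e1, e2, e3, e4, e5, e6, e7⟩ := hEV F A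
  have hnot : ∀ v : Pl F, Ideal.span {x} ≤ v.asIdeal → v ∉ Bl := by
    intro v hv hvB
    rw [Ideal.span_singleton_le_iff_mem] at hv
    by_cases hvv : v = v₀
    · exact hxv (hvv ▸ hv)
    · have h2 := hxc v (Finset.mem_erase.mpr ⟨hvv, hvB⟩)
      have h3 : x - 1 ∈ v.asIdeal := Ideal.pow_le_self hN.ne' h2
      have h4 : (1 : 𝓞 F) ∈ v.asIdeal := by
        have := sub_mem hv h3
        simpa using this
      exact v.isPrime.ne_top ((Ideal.eq_top_iff_one _).mpr h4)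
  have h2 : ev φ' (Ideal.span {x}) = ev (fun v => φ v * (c ^ e v₀) (U v)) (Ideal.span {x}) := by
    refine e5 _ _ _ fun v hv => ?_
    have hvB := hnot v hv
    have hvv : v ≠ v₀ := fun h3 => hvB (h3 ▸ hv₀)
    simp only [φ', if_neg hvv, if_neg hvB]
  have e6' := (hEV F (ZMod (l ^ k))ˣ).2.2.2.2.2.1 A (c ^ e v₀) U (Ideal.span {x})
  rw [h2, e4, e6'] at h1
  have h3 : u = ev U (Ideal.span {x}) := by
    apply Units.ext
    have h4 := (hEV F (ZMod (l ^ k))ˣ).2.2.2.2.2.1 (ZMod (l ^ k)) (Units.coeHom (ZMod (l ^ k))) U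
      (Ideal.span {x})
    have h5 := (hEV F (ZMod (l ^ k))).2.2.2.2.1 (fun v => Units.coeHom (ZMod (l ^ k)) (U v))
      (fun v => (Nat.castRingHom (ZMod (l ^ k)) : ℕ →* ZMod (l ^ k)) (q v)) (Ideal.span {x}) (by
        intro v hv
        exact hU v (hnot v hv))
    have h6 := (hEV F ℕ).2.2.2.2.2.1 (ZMod (l ^ k))
      (Nat.castRingHom (ZMod (l ^ k)) : ℕ →* ZMod (l ^ k)) (fun v => q v) (Ideal.span {x})
    have h7 := (hEV F ℕ).2.2.2.2.2.2 (Ideal.span {x}) (by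
      rw [Ne, Ideal.span_singleton_eq_bot]; exact hx0)
    have h8 : ((ev U (Ideal.span {x}) : (ZMod (l ^ k))ˣ) : ZMod (l ^ k)) =
        Units.coeHom (ZMod (l ^ k)) (ev U (Ideal.span {x})) := rfl
    rw [h8, ← h4, h5, h6, h7, hu]
    rw [Ideal.absNorm_span_singleton]
    have h9 := norm_int_pos x hx0 hxt
    have h10 : ((Algebra.norm ℤ x).natAbs : ℤ) = Algebra.norm ℤ x := Int.natAbs_of_nonneg h9.le
    conv_lhs => rw [← h10]
    simp
  rw [h3]
  exact h1

theorem st_LAR0 (hREC : ST_REC) (hAPX : ST_APX) (hEV : ST_EV) (hFRV : ST_FRV) (hOVP : ST_OVP)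
    (hCYC : MU.ST_CYC) : ST_LAR0 := by
  classical
  intro F _ _ l _ k A _ ε c e Bl φ h
  obtain ⟨N₀, hN₀, hR₀⟩ := hREC F A ε h.op Bl φ h.phi
  choose! Nv hNv hRv using fun v (hv : v ∈ Bl) =>
    at_place hREC hEV hFRV hOVP hCYC l k A ε c e Bl φ h v hv
  obtain ⟨N₁, hN₁⟩ := exists_div (F := F) (l ^ k) (pow_ne_zero _ (Fact.out : l.Prime).ne_zero) Bl (by
    intro v hv
    rw [h.pl v]
    rw [Nat.cast_pow] at hv
    exact v.isPrime.mem_of_pow_mem _ hv)
  obtain ⟨e1, e2, e3, e4, e5, e6, e7⟩ := hEV F A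
  set N : ℕ := N₀ + ∑ v ∈ Bl, Nv v + N₁ with hN
  have hNN₀ : N₀ ≤ N := by omega
  have hNN₁ : N₁ ≤ N := by omega
  have hNNv : ∀ v ∈ Bl, Nv v ≤ N := by
    intro v hv
    have := Finset.single_le_sum (f := Nv) (fun _ _ => Nat.zero_le _) hv
    omega
  have hNpos : 0 < N := by omega
  refine ⟨N, hNpos, fun x y hx0 hxt hxB hsep u hu => ?_⟩
  -- the elements `x₀`
  choose x₀ hx₀0 hx₀c hx₀t using fun w : Pl F =>
    hAPX F Bl N (fun _ => y w) (fun _ => 1) (fun _ => one_ne_zero)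
  have hx₀T : ∀ w, TotPos ((x₀ w : 𝓞 F) : F) := by
    intro w σ
    have := hx₀t w σ
    rwa [one_mul] at this
  have hle : ∀ (v : Pl F), v.asIdeal ^ N ≤ v.asIdeal := fun v => Ideal.pow_le_self hNpos.ne'
  have hformula : ∀ w ∈ Bl, ev φ (Ideal.span {x₀ w}) * c (u w) ^ e w = 1 := by
    intro w hw
    refine hRv w hw (x₀ w) ⟨hx₀0 w, hx₀T w, ?_⟩ ?_ (u w) ?_
    · intro v hv
      rw [Finset.mem_erase] at hv
      have h1 := hx₀c w v hv.2
      have h2 := (hsep w hw).2 v hv.2 hv.1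
      have h3 := add_mem h1 h2
      rw [sub_add_sub_cancel] at h3
      exact Ideal.pow_le_pow_right (hNNv w hw) h3
    · intro hmem
      have h1 := hle w (hx₀c w w hw)
      have h2 := hle w (hsep w hw).1
      apply hxB w hw
      have h3 : x = x₀ w - ((x₀ w - y w) + (y w - x)) := by ring
      rw [h3]
      exact sub_mem hmem (add_mem h1 h2)
    · rw [hu w hw]
      refine (norm_congr (l ^ k) (x₀ w) (y w) ?_).symm
      refine hN₁ _ fun v hv => ?_
      exact Ideal.pow_le_pow_right hNN₁ (hx₀c w v hv)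
  -- the element `z`
  choose! a ha using fun v (hv : v ∈ Bl) => exists_inv v N x (hxB v hv)
  obtain ⟨z, hz0, hzc, hzt⟩ := hAPX F Bl N a (fun _ => 1) (fun _ => one_ne_zero)
  have hzT : TotPos ((z : 𝓞 F) : F) := by
    intro σ
    have := hzt σ
    rwa [one_mul] at this
  have hzx : ∀ v ∈ Bl, z * x - 1 ∈ v.asIdeal ^ N := by
    intro v hv
    have h1 := hzc v hv
    have h2 := ha v hv
    have h3 : z * x - 1 = (z - a v) * x + (a v * x - 1) := by ring
    rw [h3]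
    exact add_mem (Ideal.mul_mem_right _ _ h1) h2
  have hmulT : ∀ s t : 𝓞 F, TotPos (s : F) → TotPos (t : F) → TotPos ((s * t : 𝓞 F) : F) := by
    intro s t hs ht σ
    have h1 : ((s * t : 𝓞 F) : F) = (s : F) * (t : F) := map_mul (algebraMap (𝓞 F) F) s t
    rw [h1, map_mul]
    exact mul_pos (hs σ) (ht σ)
  have hray1 : Ray Bl N₀ (z * x) := by
    refine ⟨mul_ne_zero hz0 hx0, hmulT z x hzT hxt, fun v hv => ?_⟩
    exact Ideal.pow_le_pow_right hNN₀ (hzx v hv)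
  have hprodT : ∀ s : Finset (Pl F), TotPos ((∏ w ∈ s, x₀ w : 𝓞 F) : F) := by
    intro s
    induction s using Finset.induction_on with
    | empty =>
      intro σ
      simp
    | insert w s hw ih =>
      rw [Finset.prod_insert hw]
      exact hmulT _ _ (hx₀T w) ih
  have hprodc : ∀ v ∈ Bl, (∏ w ∈ Bl, x₀ w) - x ∈ v.asIdeal ^ N := by
    intro v hv
    rw [← Ideal.Quotient.eq, map_prod]
    rw [Finset.prod_eq_single v]
    · rw [Ideal.Quotient.eq]
      have h1 := add_mem (hx₀c v v hv) (hsep v hv).1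
      rwa [sub_add_sub_cancel] at h1
    · intro w hw hwv
      rw [← map_one (Ideal.Quotient.mk (v.asIdeal ^ N)), Ideal.Quotient.eq]
      have h1 := add_mem (hx₀c w v hv) ((hsep w hw).2 v hv (Ne.symm hwv))
      rwa [sub_add_sub_cancel] at h1
    · intro h1
      exact absurd hv h1
  have hray2 : Ray Bl N₀ (z * ∏ w ∈ Bl, x₀ w) := by
    refine ⟨mul_ne_zero hz0 (Finset.prod_ne_zero_iff.mpr fun w _ => hx₀0 w),
      hmulT z _ hzT (hprodT Bl), fun v hv => ?_⟩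
    refine Ideal.pow_le_pow_right hNN₀ ?_
    have h3 : z * (∏ w ∈ Bl, x₀ w) - 1 = z * ((∏ w ∈ Bl, x₀ w) - x) + (z * x - 1) := by ring
    rw [h3]
    exact add_mem (Ideal.mul_mem_left _ _ (hprodc v hv)) (hzx v hv)
  have hspan : ∀ s t : 𝓞 F, s ≠ 0 → t ≠ 0 →
      ev φ (Ideal.span {s * t}) = ev φ (Ideal.span {s}) * ev φ (Ideal.span {t}) := by
    intro s t hs ht
    rw [← Ideal.span_singleton_mul_span_singleton]
    refine e2 φ _ _ ?_ ?_
    · rw [Ne, Ideal.span_singleton_eq_bot]; exact hs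
    · rw [Ne, Ideal.span_singleton_eq_bot]; exact ht
  have hprod : ∀ s : Finset (Pl F), ev φ (Ideal.span {∏ w ∈ s, x₀ w}) =
      ∏ w ∈ s, ev φ (Ideal.span {x₀ w}) := by
    intro s
    induction s using Finset.induction_on with
    | empty =>
      rw [Finset.prod_empty, Finset.prod_empty, Ideal.span_singleton_one]
      exact e1 φ
    | insert w s hw ih =>
      rw [Finset.prod_insert hw, Finset.prod_insert hw, hspan _ _ (hx₀0 w)
        (Finset.prod_ne_zero_iff.mpr fun w _ => hx₀0 w), ih]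
  have h1 := hR₀ _ hray1
  have h2 := hR₀ _ hray2
  rw [hspan _ _ hz0 hx0] at h1
  rw [hspan _ _ hz0 (Finset.prod_ne_zero_iff.mpr fun w _ => hx₀0 w), hprod, ← h1] at h2
  have h3 := mul_left_cancel h2
  rw [← h3, ← Finset.prod_mul_distrib]
  exact Finset.prod_eq_one hformula

end Pool.Agent.Helper18.REC
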