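import Pool.Agent.Helper18.REC.RelCore

set_option autoImplicit false

/-! `st_REL1`: the exact relation from infinitely many `l`. -/

open scoped Classical
open NumberField Polynomial

namespace Pool.Agent.Helper18.REC

open _root_.REC
open Pool.Agent.Helper13.ZL (Pl q)
open MU

/-- the relation modulo some prime over `l` -/
def RelMod {F : Type} [Field F] [NumberField F] {S : Finset ℕ} {n w : ℕ} {h : Fin n → ℕ}
    (M : Mot F S n w h) (L : Type) [Field L] [NumberField L] (g : (F →+* L) → Fin n) (l : ℕ) :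
    Prop :=
  ∃ 𝔩 : Ideal (𝓞 L), 𝔩.IsPrime ∧ (l : 𝓞 L) ∈ 𝔩 ∧
    ∀ (v : Pl F) (p : ℕ) (𝔓 : Ideal (Zb F)) (j m : ℕ) (σ : Gal F) (x : 𝓞 F) (P : ℤ[X]),
      p.Prime → (p : 𝓞 F) ∈ v.asIdeal → OverP v 𝔓 → l ≠ p →
      CongPow 𝔓 (q v ^ j) σ → TotPos (x : F) → Ideal.span {x} = v.asIdeal ^ m →
      (∀ (l : ℕ) [Fact l.Prime], l ≠ p →
        (((M.ρ l (σ ^ m))⁻¹ : Matrix.GeneralLinearGroup (Fin n) ℤ_[l]) :
          Matrix (Fin n) (Fin n) ℤ_[l]).charpoly = P.map (Int.castRingHom ℤ_[l])) →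
      aeval (∏ τ : F →+* L, RingOfIntegers.mapRingHom τ x ^ (h (g τ) * j) : 𝓞 L) P ∈ 𝔩

theorem relMod_of_con (hLARK : ST_LARK) (hEV : ST_EV) {F L : Type} [Field F] [NumberField F]
    [Field L] [NumberField L] [IsGalois ℚ L] [Nonempty (F →+* L)] {S : Finset ℕ} {n w : ℕ}
    {h : Fin n → ℕ} (M : Mot F S n w h) (l : ℕ) [Fact l.Prime] (ε : Gal F →* (ZMod (l ^ 1))ˣ)
    (e₀ : Pl F → ℕ) (hcon : Con M l 1 ε e₀) : ∃ g : (F →+* L) → Fin n, RelMod M L g l := by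
  obtain ⟨⟨Bl, φ, hcy, he⟩, hdet⟩ := hcon
  obtain ⟨𝔩, h𝔩, hl𝔩⟩ := exists_prime_over L l
  obtain ⟨pl, hpl, hmem⟩ := exists_pl F L l 𝔩 h𝔩 hl𝔩
  choose g hg using fun τ => he (pl τ) ((hcy.pl (pl τ)).mpr (hmem τ))
  refine ⟨g, 𝔩, h𝔩, hl𝔩, ?_⟩
  intro v p 𝔓 j m σ x P hp hpv h𝔓 hlp hσ hx hxv hP
  have h1 := rel_core hLARK hEV M l 1 one_pos ε e₀ Bl φ hcy hdet 𝔩 h𝔩 hl𝔩 pl hpl v p 𝔓 j m σ x P hp
    hlp hpv h𝔓 hσ hx hxv (hP l hlp)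
  rw [pow_one] at h1
  simp only [hg] at h1
  exact h1

theorem st_REL1 (hLARK : ST_LARK) (hEV : ST_EV) : ST_REL1 := by
  intro F L _ _ _ _ _ _ S hS n w h M hinf
  -- one pattern for infinitely many `l`
  have h1 : ∃ g : (F →+* L) → Fin n, ∀ c : ℕ, ∃ l : ℕ, l.Prime ∧ c < l ∧ RelMod M L g l := by
    by_contra hcon
    push Not at hcon
    choose c hc using hcon
    obtain ⟨l, hl, hlc, ε, e₀, hCon⟩ := hinf (∑ g : (F →+* L) → Fin n, c g)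
    obtain ⟨g, hg⟩ := relMod_of_con hLARK hEV (L := L) M l ε e₀ hCon
    have h2 : c g ≤ ∑ g : (F →+* L) → Fin n, c g :=
      Finset.single_le_sum (f := c) (fun _ _ => Nat.zero_le _) (Finset.mem_univ g)
    exact hc g l hl.out (by omega) hg
  obtain ⟨g, hg⟩ := h1
  refine ⟨fun τ => h (g τ), fun τ => ⟨g τ, rfl⟩, S, subset_rfl, ?_⟩
  intro v p 𝔓 j m σ x P hp hpS hpv h𝔓 hj hm hσ hx hxv hP
  by_contra hne
  obtain ⟨c, hc⟩ := bound_of_mem L _ hne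
  obtain ⟨l, hl, hlc, 𝔩, h𝔩, hl𝔩, hrel⟩ := hg (c + p)
  have hlp : l ≠ p := by omega
  exact hc l hl (by omega) 𝔩 h𝔩 hl𝔩 (hrel v p 𝔓 j m σ x P hp hpv h𝔓 hlp hσ hx hxv hP)

end Pool.Agent.Helper18.REC
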