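import Pool.Agent.Helper85.REC.Stmts6

set_option autoImplicit false

/-! The relation modulo a power of a prime over `l` (for REL1 and RELK). -/

open scoped Classical
open NumberField Polynomial

namespace Pool.Agent.Helper18.REC

open _root_.REC
open Pool.Agent.Helper13.ZL (Pl q)
open MU

/-- an eigenvalue of `M` gives a root of the characteristic polynomial of the inverse -/
theorem charpoly_inv {R : Type} [CommRing R] {n : ℕ} (M N : Matrix (Fin n) (Fin n) R)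
    (h : N * M = 1) (u : Rˣ) (hdet : (M - (u : R) • (1 : Matrix (Fin n) (Fin n) R)).det = 0) :
    N.charpoly.eval ((u⁻¹ : Rˣ) : R) = 0 := by
  rw [Matrix.eval_charpoly]
  have h1 : Matrix.scalar (Fin n) ((u⁻¹ : Rˣ) : R) - N =
      ((u⁻¹ : Rˣ) : R) • (N * (M - (u : R) • (1 : Matrix (Fin n) (Fin n) R))) := by
    rw [Matrix.mul_sub, h, Matrix.mul_smul, Matrix.mul_one, smul_sub, smul_smul, Units.inv_mul,
      one_smul]
    congr 1
    ext i j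
    simp [Matrix.scalar_apply, Matrix.diagonal_apply, Matrix.one_apply]
  rw [h1, Matrix.det_smul, Matrix.det_mul, hdet, mul_zero, mul_zero]

variable {F : Type} [Field F] [NumberField F]

/-- the value of the multiplicative extension at a power of a place -/
theorem ev_pow (hEV : ST_EV) {A : Type} [CommMonoid A] (f : Pl F → A) (v : Pl F) (m : ℕ) :
    ev f (v.asIdeal ^ m) = f v ^ m := by
  obtain ⟨e1, e2, e3, -⟩ := hEV F A
  induction m with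
  | zero => rw [pow_zero, pow_zero, Ideal.one_eq_top]; exact e1 f
  | succ m ih =>
    rw [pow_succ, e2 f _ _ (pow_ne_zero m v.ne_bot) v.ne_bot, ih, e3, pow_succ]

theorem rel_core (hLARK : ST_LARK) (hEV : ST_EV) {L : Type} [Field L] [NumberField L]
    [IsGalois ℚ L] [Nonempty (F →+* L)] {S : Finset ℕ} {n w : ℕ} {h : Fin n → ℕ}
    (M : Mot F S n w h) (l : ℕ) [Fact l.Prime] (k : ℕ) (hk : 0 < k)
    (ε : Gal F →* (ZMod (l ^ k))ˣ) (e₀ : Pl F → ℕ) (Bl : Finset (Pl F))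
    (φ : Pl F → (ZMod (l ^ k))ˣ)
    (hcy : IsCyE l k ε (MonoidHom.id _) (fun v => (e₀ v : ℤ)) Bl φ)
    (hdet : ∀ σ : Gal F, (((M.ρ l σ : Matrix.GeneralLinearGroup (Fin n) ℤ_[l]) :
      Matrix (Fin n) (Fin n) ℤ_[l]).map (PadicInt.toZModPow k) -
      ((ε σ : (ZMod (l ^ k))ˣ) : ZMod (l ^ k)) •
        (1 : Matrix (Fin n) (Fin n) (ZMod (l ^ k)))).det = 0)
    (𝔩 : Ideal (𝓞 L)) (h𝔩 : 𝔩.IsPrime) (hl𝔩 : (l : 𝓞 L) ∈ 𝔩) (pl : (F →+* L) → Pl F)
    (hpl : IsPlOf 𝔩 pl) (v : Pl F) (p : ℕ) (𝔓 : Ideal (Zb F)) (j m : ℕ) (σ : Gal F) (x : 𝓞 F)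
    (P : ℤ[X]) (hp : p.Prime) (hpl' : l ≠ p) (hpv : (p : 𝓞 F) ∈ v.asIdeal) (h𝔓 : OverP v 𝔓)
    (hσ : CongPow 𝔓 (q v ^ j) σ) (hx : TotPos (x : F))
    (hxv : Ideal.span {x} = v.asIdeal ^ m)
    (hP : (((M.ρ l (σ ^ m))⁻¹ : Matrix.GeneralLinearGroup (Fin n) ℤ_[l]) :
          Matrix (Fin n) (Fin n) ℤ_[l]).charpoly = P.map (Int.castRingHom ℤ_[l])) :
    aeval (∏ τ : F →+* L, RingOfIntegers.mapRingHom τ x ^ (e₀ (pl τ) * j) : 𝓞 L) P ∈ 𝔩 ^ k := by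
  have hlP : l.Prime := Fact.out
  -- places
  have hcop : ∀ u : Pl F, (p : 𝓞 F) ∈ u.asIdeal → (l : 𝓞 F) ∈ u.asIdeal → False := by
    intro u h1 h2
    have h3 : IsCoprime (l : ℤ) (p : ℤ) := by
      rw [Nat.isCoprime_iff_coprime]
      exact (Nat.coprime_primes hlP hp).mpr hpl'
    obtain ⟨a, b, hab⟩ := h3
    apply u.isPrime.ne_top
    rw [Ideal.eq_top_iff_one]
    have h4 : (a : 𝓞 F) * (l : 𝓞 F) + (b : 𝓞 F) * (p : 𝓞 F) = 1 := by exact_mod_cast congrArg (Int.cast : ℤ → 𝓞 F) hab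
    rw [← h4]
    exact add_mem (Ideal.mul_mem_left _ _ h2) (Ideal.mul_mem_left _ _ h1)
  have hvB : v ∉ Bl := fun h1 => hcop v hpv ((hcy.pl v).mp h1)
  have hxB : ∀ u ∈ Bl, x ∉ u.asIdeal := by
    intro u hu hxu
    have h1 : v.asIdeal ^ m ≤ u.asIdeal := by
      rw [← hxv, Ideal.span_singleton_le_iff_mem]; exact hxu
    have h2 : v.asIdeal ≤ u.asIdeal := by
      intro y hy
      exact u.isPrime.mem_of_pow_mem m (h1 (Ideal.pow_mem_pow hy m))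
    exact hcop u (h2 hpv) ((hcy.pl u).mp hu)
  have hx0 : x ≠ 0 := by
    rintro rfl
    have h1 : (⊥ : Ideal (𝓞 F)) = v.asIdeal ^ m := by
      rw [← hxv, Ideal.span_singleton_eq_bot.mpr rfl]
    exact (pow_ne_zero m v.ne_bot) h1.symm
  -- the values
  have hev : ev φ (Ideal.span {x}) = φ v ^ m := by rw [hxv, ev_pow hEV]
  have hεσ : ε σ = φ v ^ j := hcy.phi.2 v hvB 𝔓 h𝔓 j σ hσ
  have hεσm : ε (σ ^ m) = (φ v ^ m) ^ j := by
    rw [map_pow, hεσ, ← pow_mul, ← pow_mul, mul_comm]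
  obtain ⟨t, ht⟩ := ZMod.intCast_surjective (((φ v ^ m : (ZMod (l ^ k))ˣ)) : ZMod (l ^ k))
  obtain ⟨s, hs⟩ := ZMod.intCast_surjective ((((φ v ^ m)⁻¹ : (ZMod (l ^ k))ˣ)) : ZMod (l ^ k))
  have hL := hLARK F L l k hk ε e₀ Bl φ hcy 𝔩 h𝔩 hl𝔩 pl hpl x hx0 hx hxB t (by rw [ht, hev])
  set β : 𝓞 L := ∏ τ : F →+* L, RingOfIntegers.mapRingHom τ x ^ e₀ (pl τ) with hβ
  have hβj : (∏ τ : F →+* L, RingOfIntegers.mapRingHom τ x ^ (e₀ (pl τ) * j) : 𝓞 L) = β ^ j := by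
    rw [hβ, ← Finset.prod_pow]
    exact Finset.prod_congr rfl fun τ _ => by rw [pow_mul]
  rw [hβj]
  -- integers divisible by `l ^ k`
  have hmem : ∀ z : ℤ, ((z : ℤ) : ZMod (l ^ k)) = 0 → ((z : ℤ) : 𝓞 L) ∈ 𝔩 ^ k := by
    intro z hz
    rw [ZMod.intCast_zmod_eq_zero_iff_dvd] at hz
    obtain ⟨c, hc⟩ := hz
    rw [hc]
    push_cast
    exact Ideal.mul_mem_right _ _ (Ideal.pow_mem_pow hl𝔩 k)
  -- `β ≡ s`
  have hst : ((s * t - 1 : ℤ) : ZMod (l ^ k)) = 0 := by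
    push_cast
    rw [hs, ht, Units.inv_mul, sub_self]
  have h1 := hmem _ hst
  have h2 : β - (s : 𝓞 L) ∈ 𝔩 ^ k := by
    have h3 : β - (s : 𝓞 L) = (s : 𝓞 L) * ((t : 𝓞 L) * β - 1) -
        ((s * t - 1 : ℤ) : 𝓞 L) * β := by
      push_cast
      ring
    rw [h3]
    exact sub_mem (Ideal.mul_mem_left _ _ hL) (Ideal.mul_mem_right _ _ h1)
  -- the root modulo `l ^ k`
  have h4 : (P.map (Int.castRingHom (ZMod (l ^ k)))).eval
      ((((φ v ^ m) ^ j)⁻¹ : (ZMod (l ^ k))ˣ) : ZMod (l ^ k)) = 0 := by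
    have h5 := hdet (σ ^ m)
    rw [hεσm] at h5
    have h6 : (((M.ρ l (σ ^ m))⁻¹ : Matrix.GeneralLinearGroup (Fin n) ℤ_[l]) :
          Matrix (Fin n) (Fin n) ℤ_[l]).map (PadicInt.toZModPow k) *
        ((M.ρ l (σ ^ m) : Matrix.GeneralLinearGroup (Fin n) ℤ_[l]) :
          Matrix (Fin n) (Fin n) ℤ_[l]).map (PadicInt.toZModPow k) = 1 := by
      rw [← Matrix.map_mul, ← Units.val_mul, inv_mul_cancel, Units.val_one]
      exact Matrix.map_one _ (map_zero _) (map_one _)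
    have h7 := charpoly_inv _ _ h6 _ h5
    rw [Matrix.charpoly_map, hP, Polynomial.map_map] at h7
    convert h7 using 3
    exact RingHom.ext_int _ _
  have h8 : ((P.eval (s ^ j) : ℤ) : ZMod (l ^ k)) = 0 := by
    have h9 : ((P.eval (s ^ j) : ℤ) : ZMod (l ^ k)) =
        (P.map (Int.castRingHom (ZMod (l ^ k)))).eval ((s : ZMod (l ^ k)) ^ j) := by
      rw [Polynomial.eval_map]
      have := Polynomial.eval₂_at_apply (p := P) (Int.castRingHom (ZMod (l ^ k))) (s ^ j)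
      simp only [eq_intCast, Int.cast_pow] at this
      exact this.symm
    rw [h9, hs, ← h4]
    rw [← Units.val_pow_eq_pow_val, inv_pow]
  have h10 := hmem _ h8
  have h11 : aeval (β ^ j) P - ((P.eval (s ^ j) : ℤ) : 𝓞 L) ∈ 𝔩 ^ k := by
    have h12 : ((P.eval (s ^ j) : ℤ) : 𝓞 L) = (P.map (Int.castRingHom (𝓞 L))).eval ((s : 𝓞 L) ^ j) := by
      rw [Polynomial.eval_map]
      have := Polynomial.eval₂_at_apply (p := P) (Int.castRingHom (𝓞 L)) (s ^ j)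
      simp only [eq_intCast, Int.cast_pow] at this
      exact this.symm
    have h13 : aeval (β ^ j) P = (P.map (Int.castRingHom (𝓞 L))).eval (β ^ j) := by
      rw [Polynomial.eval_map, Polynomial.aeval_def]
      rfl
    rw [h12, h13]
    have h14 : β - (s : 𝓞 L) ∣ (P.map (Int.castRingHom (𝓞 L))).eval (β ^ j) -
        (P.map (Int.castRingHom (𝓞 L))).eval ((s : 𝓞 L) ^ j) :=
      (sub_dvd_pow_sub_pow _ _ j).trans (Polynomial.sub_dvd_eval_sub _ _ _)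
    obtain ⟨c, hc⟩ := h14
    rw [hc]
    exact Ideal.mul_mem_right _ _ h2
  have := add_mem h11 h10
  rwa [sub_add_cancel] at this

/-- a prime over `l` -/
theorem exists_prime_over (L : Type) [Field L] [NumberField L] (l : ℕ) [Fact l.Prime] :
    ∃ 𝔩 : Ideal (𝓞 L), 𝔩.IsPrime ∧ (l : 𝓞 L) ∈ 𝔩 := by
  have hlP : l.Prime := Fact.out
  have h1 : Ideal.span {(l : 𝓞 L)} ≠ ⊤ := by
    rw [Ne, Ideal.span_singleton_eq_top]
    intro hu
    have h2 := hu.map (Algebra.norm ℤ)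
    have h3 : ((l : ℤ) : 𝓞 L) = algebraMap ℤ (𝓞 L) l := rfl
    rw [← Int.cast_natCast, h3, Algebra.norm_algebraMap] at h2
    have h4 : Module.finrank ℤ (𝓞 L) ≠ 0 := by
      rw [RingOfIntegers.rank]
      exact Module.finrank_pos.ne'
    have h5 := (isUnit_pow_iff h4).mp h2
    rw [Int.isUnit_iff_natAbs_eq, Int.natAbs_natCast] at h5
    exact hlP.one_lt.ne' h5
  obtain ⟨𝔩, h𝔩, hle⟩ := Ideal.exists_le_maximal _ h1
  exact ⟨𝔩, h𝔩.isPrime, hle (Ideal.mem_span_singleton_self _)⟩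

/-- the places induced by the embeddings -/
theorem exists_pl (F L : Type) [Field F] [NumberField F] [Field L] [NumberField L] (l : ℕ)
    [Fact l.Prime] (𝔩 : Ideal (𝓞 L)) (h𝔩 : 𝔩.IsPrime) (hl : (l : 𝓞 L) ∈ 𝔩) :
    ∃ pl : (F →+* L) → Pl F, IsPlOf 𝔩 pl ∧ ∀ τ, (l : 𝓞 F) ∈ (pl τ).asIdeal := by
  have hmem : ∀ τ : F →+* L, (l : 𝓞 F) ∈ 𝔩.comap (RingOfIntegers.mapRingHom τ) := by
    intro τ
    rw [Ideal.mem_comap, map_natCast]
    exact hl
  refine ⟨fun τ => ⟨𝔩.comap (RingOfIntegers.mapRingHom τ), h𝔩.comap _, ?_⟩, fun τ x => Iff.rfl,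
    hmem⟩
  intro hbot
  have h1 := hmem τ
  rw [hbot, Ideal.mem_bot] at h1
  exact (Fact.out : l.Prime).ne_zero (by exact_mod_cast h1)

/-- a nonzero element is in the primes over finitely many `l` only -/
theorem bound_of_mem (L : Type) [Field L] [NumberField L] (y : 𝓞 L) (hy : y ≠ 0) :
    ∃ c : ℕ, ∀ l : ℕ, l.Prime → c < l → ∀ 𝔩 : Ideal (𝓞 L), 𝔩.IsPrime → (l : 𝓞 L) ∈ 𝔩 → y ∉ 𝔩 := by
  have h1 : (Ideal.span {y}).comap (algebraMap ℤ (𝓞 L)) ≠ ⊥ :=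
    Ideal.comap_ne_bot_of_integral_mem hy (Ideal.mem_span_singleton_self y)
      (Algebra.IsIntegral.isIntegral y)
  obtain ⟨c, hc, hc0⟩ := Submodule.exists_mem_ne_zero_of_ne_bot h1
  refine ⟨c.natAbs, fun l hl hcl 𝔩 h𝔩 hl𝔩 hy𝔩 => ?_⟩
  have h2 : algebraMap ℤ (𝓞 L) c ∈ 𝔩 := by
    have h3 : Ideal.span {y} ≤ 𝔩 := by
      rw [Ideal.span_singleton_le_iff_mem]; exact hy𝔩
    exact h3 hc
  have h3 : IsCoprime (l : ℤ) c := by
    rw [Int.isCoprime_iff_gcd_eq_one]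
    have h4 : Nat.Coprime l c.natAbs := by
      rw [hl.coprime_iff_not_dvd]
      intro h5
      exact absurd (Nat.le_of_dvd (Int.natAbs_pos.mpr hc0) h5) (by omega)
    simpa [Int.gcd] using h4
  obtain ⟨a, b, hab⟩ := h3
  apply h𝔩.ne_top
  rw [Ideal.eq_top_iff_one]
  have h4 : (a : 𝓞 L) * (l : 𝓞 L) + (b : 𝓞 L) * (algebraMap ℤ (𝓞 L) c) = 1 := by
    have := congrArg (Int.cast : ℤ → 𝓞 L) hab
    push_cast at this
    exact this
  rw [← h4]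
  exact add_mem (Ideal.mul_mem_left _ _ hl𝔩) (Ideal.mul_mem_left _ _ h2)

end Pool.Agent.Helper18.REC
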