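import Pool.Agent.Helper85.REC.Stmts7
import Pool.Agent.Helper18.REC.NormLem

set_option autoImplicit false

/-! `st_TAK`: tame reciprocity for fields with sufficiently many roots of unity. -/

open scoped Classical
open NumberField

namespace Pool.Agent.Helper18.REC

open _root_.REC
open Pool.Agent.Helper13.ZL (Pl q)
open MU (Gal Zb Over CongPow)

variable {F : Type} [Field F] [NumberField F]

/-- finitely many places contain a nonzero element -/
theorem exists_places (x : 𝓞 F) (hx : x ≠ 0) : ∃ S : Finset (Pl F), ∀ w : Pl F,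
    w ∈ S ↔ x ∈ w.asIdeal := by
  classical
  have h1 : {w : Pl F | w.asIdeal ∣ Ideal.span {x}}.Finite :=
    Ideal.finite_factors (by rw [Ne, Ideal.zero_eq_bot, Ideal.span_singleton_eq_bot]; exact hx)
  refine ⟨h1.toFinset, fun w => ?_⟩
  rw [Set.Finite.mem_toFinset, Set.mem_ofPred_eq, Ideal.dvd_span_singleton]

omit [NumberField F] in
theorem totPos_mul (s t : 𝓞 F) (hs : TotPos (s : F)) (ht : TotPos (t : F)) :
    TotPos ((s * t : 𝓞 F) : F) := by
  intro σ
  have h1 : ((s * t : 𝓞 F) : F) = (s : F) * (t : F) := map_mul (algebraMap (𝓞 F) F) s t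
  rw [h1, map_mul]
  exact mul_pos (hs σ) (ht σ)

/-- the absolute norm lies in the place -/
theorem q_mem (v : Pl F) : ((q v : ℕ) : 𝓞 F) ∈ v.asIdeal := Ideal.absNorm_mem v.asIdeal

/-- the key computation: the Kummer character of a totally positive uniformizer is the tame
character on the inertia groups -/
theorem tm_kummer (hKUM : ST_KUM) (v : Pl F) (π α : 𝓞 F) (hrt : HasRt F (q v - 1))
    (hnv : ((q v - 1 : ℕ) : 𝓞 F) ∉ v.asIdeal) (_hα0 : α ≠ 0)
    (hπ : π ∈ v.asIdeal ∧ π ∉ v.asIdeal ^ 2) (J : Ideal (𝓞 F))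
    (hJ : Ideal.span {α} = v.asIdeal * J) (hJv : ¬ J ≤ v.asIdeal) (κ : Gal F →* (𝓞 F)ˣ)
    (hκ : IsKum (q v - 1) α κ) (𝔓 : Ideal (Zb F)) (h𝔓 : OverP v 𝔓) (σ : Gal F)
    (hσ : CongPow 𝔓 1 σ) : Tm v 𝔓 π σ ((κ σ : (𝓞 F)ˣ) : 𝓞 F) := by
  classical
  have hn0 : q v - 1 ≠ 0 := hrt.1.ne'
  obtain ⟨b, hbJ, hbv⟩ := SetLike.not_le_iff_exists.mp hJv
  have h1 : b * π ∈ Ideal.span {α} := by
    rw [hJ, mul_comm b π]
    exact Ideal.mul_mem_mul hπ.1 hbJ
  obtain ⟨a, ha⟩ := Ideal.mem_span_singleton'.mp h1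
  have hαv : α ∈ v.asIdeal := by
    have : α ∈ Ideal.span {α} := Ideal.mem_span_singleton_self α
    rw [hJ] at this
    exact (Ideal.mul_le_left : v.asIdeal * J ≤ v.asIdeal) this
  have hav : a ∉ v.asIdeal := by
    intro hav
    have h2 : b * π ∈ v.asIdeal ^ 2 := by
      rw [← ha, pow_two]
      exact Ideal.mul_mem_mul hav hαv
    have := v.isPrime
    rcases Ideal.IsPrime.mul_mem_pow v.asIdeal h2 with h3 | h3
    · exact hbv h3
    · exact hπ.2 h3
  have ha0 : a ≠ 0 := by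
    rintro rfl
    exact hav (zero_mem _)
  have hb0 : b ≠ 0 := by
    rintro rfl
    exact hbv (zero_mem _)
  -- roots of a and b
  obtain ⟨κa, hκa, -, -, hκa'⟩ := hKUM F (q v - 1) hrt a ha0
  obtain ⟨κb, hκb, -, -, hκb'⟩ := hKUM F (q v - 1) hrt b hb0
  have hσ' : CongPow 𝔓 (q v ^ 0) σ := by rw [pow_zero]; exact hσ
  have h3 : κa σ = 1 := by
    have := hκa' v hnv hav 𝔓 h𝔓 0 σ hσ'
    rwa [pow_zero] at this
  have h4 : κb σ = 1 := by
    have := hκb' v hnv hbv 𝔓 h𝔓 0 σ hσ'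
    rwa [pow_zero] at this
  obtain ⟨a1, ha1⟩ := IsAlgClosed.exists_pow_nat_eq
    (algebraMap F (AlgebraicClosure F) (a : F)) (Nat.pos_of_ne_zero hn0)
  obtain ⟨b1, hb1⟩ := IsAlgClosed.exists_pow_nat_eq
    (algebraMap F (AlgebraicClosure F) (b : F)) (Nat.pos_of_ne_zero hn0)
  have h5 : σ a1 = a1 := by
    rw [hκa σ a1 ha1, h3]
    simp
  have h6 : σ b1 = b1 := by
    rw [hκb σ b1 hb1, h4]
    simp
  have hne : ∀ z : 𝓞 F, z ≠ 0 → algebraMap F (AlgebraicClosure F) (z : F) ≠ 0 := by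
    intro z hz
    rw [Ne, map_eq_zero]
    intro h
    exact hz (RingOfIntegers.coe_eq_zero_iff.mp h)
  have ha1' : a1 ≠ 0 := by
    rintro rfl
    apply hne a ha0
    rw [← ha1, zero_pow hn0]
  have hb1' : b1 ≠ 0 := by
    rintro rfl
    apply hne b hb0
    rw [← hb1, zero_pow hn0]
  have hab : algebraMap F (AlgebraicClosure F) (a : F) * algebraMap F (AlgebraicClosure F) (α : F) =
      algebraMap F (AlgebraicClosure F) (b : F) * algebraMap F (AlgebraicClosure F) (π : F) := by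
    have h7 : (a : F) * (α : F) = (b : F) * (π : F) := by
      have := congrArg (fun z : 𝓞 F => (z : F)) ha
      simpa using this
    have h8 := congrArg (algebraMap F (AlgebraicClosure F)) h7
    rwa [map_mul, map_mul] at h8
  intro y ζ c hy hζ hc
  have hπ0 : π ≠ 0 := by
    rintro rfl
    exact hπ.2 (zero_mem _)
  have hy0 : (y : AlgebraicClosure F) ≠ 0 := by
    intro h
    apply hne π hπ0
    rw [← hy, h, zero_pow hn0]
  have h7 : ((y : AlgebraicClosure F) * b1 / a1) ^ (q v - 1) =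
      algebraMap F (AlgebraicClosure F) (α : F) := by
    rw [div_pow, mul_pow, hy, ha1, hb1, div_eq_iff (hne a ha0), mul_comm _ (algebraMap F _ (a : F)),
      hab, mul_comm]
  have h8 := hκ σ _ h7
  rw [map_div₀, map_mul, h5, h6] at h8
  have h9 : σ (y : AlgebraicClosure F) =
      algebraMap F (AlgebraicClosure F) (((κ σ : (𝓞 F)ˣ) : 𝓞 F) : F) * y := by
    field_simp at h8
    exact h8
  rw [h9, ← hc] at hζ
  have h10 : (ζ : AlgebraicClosure F) = c := mul_right_cancel₀ hy0 hζ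
  have h11 : ζ = c := Subtype.ext h10
  rw [h11, sub_self]
  exact zero_mem _

theorem st_TAK (hREC : ST_REC) (hKUM : ST_KUM) (hPRL : ST_PRL) (hSYB : ST_SYB) (hEV : ST_EV)
    (hFRV : ST_FRV) (_hOVP : ST_OVP) (hAPX : ST_APX) : ST_TAK := by
  classical
  intro F _ _ v A _ ε B φ π f hrt hε hvB hφ hT
  obtain ⟨hπ, hTm⟩ := hT
  set n : ℕ := q v - 1 with hn
  have hn0 : n ≠ 0 := hrt.1.ne'
  have hnv : (n : 𝓞 F) ∉ v.asIdeal := by
    intro h
    have h1 := q_mem v
    have h2 : ((q v : ℕ) : 𝓞 F) = (n : 𝓞 F) + 1 := by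
      have : q v = n + 1 := by omega
      rw [this]
      push_cast
      rfl
    rw [h2] at h1
    have h3 : (1 : 𝓞 F) ∈ v.asIdeal := by
      have := sub_mem h1 h
      simpa using this
    exact v.isPrime.ne_top ((Ideal.eq_top_iff_one _).mpr h3)
  have hnF0 : (n : 𝓞 F) ≠ 0 := by exact_mod_cast hn0
  obtain ⟨Sn, hSn⟩ := exists_places (n : 𝓞 F) hnF0
  obtain ⟨M, hM⟩ := exists_div (F := F) (n ^ 3) (pow_ne_zero _ hn0) Sn (by
    intro w hw
    rw [hSn w]
    rw [Nat.cast_pow] at hw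
    exact w.isPrime.mem_of_pow_mem _ hw)
  have hM' : ∀ x : 𝓞 F, (∀ w ∈ Sn, x ∈ w.asIdeal ^ M) → x ∈ Ideal.span {(n : 𝓞 F)} ^ 3 := by
    intro x hx
    have := hM x hx
    rwa [Nat.cast_pow, ← Ideal.span_singleton_pow] at this
  have hvSn : v ∉ Sn := by
    rw [hSn]
    exact hnv
  -- α
  obtain ⟨α, hα0, hαc, hαt⟩ := hAPX F (insert v Sn) (M + 2) (fun w => if w = v then π else 1)
    (fun _ => 1) (fun _ => one_ne_zero)
  have hαT : TotPos ((α : 𝓞 F) : F) := by
    intro σ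
    have := hαt σ
    rwa [one_mul] at this
  have hαn : α - 1 ∈ Ideal.span {(n : 𝓞 F)} ^ 3 := by
    refine hM' _ fun w hw => ?_
    have h1 := hαc w (Finset.mem_insert_of_mem hw)
    have hwv : w ≠ v := fun h => hvSn (h ▸ hw)
    rw [if_neg hwv] at h1
    exact Ideal.pow_le_pow_right (by omega) h1
  have hαπ : α - π ∈ v.asIdeal ^ 2 := by
    have h1 := hαc v (Finset.mem_insert_self _ _)
    rw [if_pos rfl] at h1
    exact Ideal.pow_le_pow_right (by omega) h1
  have hv2 : v.asIdeal ^ 2 ≤ v.asIdeal := Ideal.pow_le_self (by omega)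
  have hαv : α ∈ v.asIdeal := by
    have h1 := add_mem (hv2 hαπ) hπ.1
    rwa [sub_add_cancel] at h1
  have hαv2 : α ∉ v.asIdeal ^ 2 := by
    intro h
    apply hπ.2
    have h1 := sub_mem h hαπ
    rwa [sub_sub_cancel] at h1
  obtain ⟨J, hJ⟩ := Ideal.dvd_span_singleton.mpr hαv
  have hJv : ¬ J ≤ v.asIdeal := by
    intro h
    apply hαv2
    have h1 : α ∈ Ideal.span {α} := Ideal.mem_span_singleton_self α
    rw [hJ] at h1
    rw [pow_two]
    exact Ideal.mul_mono_right h h1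
  have hJ0 : J ≠ ⊥ := by
    rintro rfl
    exact hJv bot_le
  -- κ
  obtain ⟨κ, hκ, hκo, hκn, hκF⟩ := hKUM F n hrt α hα0
  let g : (𝓞 F)ˣ →* A := f.comp (Units.map (Ideal.Quotient.mk v.asIdeal : 𝓞 F →* 𝓞 F ⧸ v.asIdeal))
  let η : Gal F →* A := ε * g.comp κ
  have hηa : ∀ σ, η σ = ε σ * g (κ σ) := fun σ => rfl
  have hηo : IsOpen (η.ker : Set (Gal F)) := by
    have h1 : IsOpen ((ε.ker ⊓ κ.ker : Subgroup (Gal F)) : Set (Gal F)) := by
      rw [Subgroup.coe_inf]
      exact hε.inter hκo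
    refine Subgroup.isOpen_mono ?_ h1
    rintro σ ⟨h2, h3⟩
    rw [MonoidHom.mem_ker, hηa, MonoidHom.mem_ker.mp h2, MonoidHom.mem_ker.mp h3]
    simp
  obtain ⟨a₀, ha₀⟩ := (hFRV F A η v).1 (by
    intro 𝔓 h𝔓 σ hσ
    rw [hηa]
    exact hTm 𝔓 h𝔓 σ hσ ((κ σ : (𝓞 F)ˣ) : 𝓞 F)
      (Units.map (Ideal.Quotient.mk v.asIdeal : 𝓞 F →* 𝓞 F ⧸ v.asIdeal) (κ σ)) rfl
      (tm_kummer hKUM v π α hrt hnv hα0 hπ J hJ hJv κ hκ 𝔓 h𝔓 σ hσ))
  -- the bad places
  obtain ⟨Sα, hSα⟩ := exists_places ((n : 𝓞 F) * α) (mul_ne_zero hnF0 hα0)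
  set B'' : Finset (Pl F) := (B ∪ Sα).erase v with hB''
  have hvB'' : v ∉ B'' := Finset.notMem_erase _ _
  let φ' : Pl F → A := fun w => if w = v then a₀ else if w ∈ B'' then 1 else
    φ w * g (sy n α w)
  have hφ' : IsPhi η B'' φ' := by
    constructor
    · intro w hw
      have hwv : w ≠ v := fun h => hvB'' (h ▸ hw)
      simp only [φ', if_neg hwv, if_pos hw]
    · intro w hw
      by_cases hwv : w = v
      · subst hwv
        simp only [φ', if_pos]
        exact ha₀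
      · simp only [φ', if_neg hwv, if_neg hw]
        have hw2 : w ∉ B ∪ Sα := fun h => hw (Finset.mem_erase.mpr ⟨hwv, h⟩)
        rw [Finset.mem_union, not_or, hSα] at hw2
        have h3 : (n : 𝓞 F) ∉ w.asIdeal := fun h => hw2.2 (Ideal.mul_mem_right _ _ h)
        have h4 : α ∉ w.asIdeal := fun h => hw2.2 (Ideal.mul_mem_left _ _ h)
        intro 𝔓 h𝔓 j σ hσ
        have h1 := hφ.2 w hw2.1 𝔓 h𝔓 j σ hσ
        have h2 := hκF w h3 h4 𝔓 h𝔓 j σ hσ
        rw [hηa, h1, h2, map_pow, mul_pow]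
  obtain ⟨N₁, hN₁, hR₁⟩ := hREC F A η hηo B'' φ' hφ'
  obtain ⟨N₂, hN₂, hR₂⟩ := hREC F A ε hε B φ hφ
  obtain ⟨e1, e2, e3, e4, e5, e6, e7⟩ := hEV F A
  have hspan : ∀ s t : 𝓞 F, s ≠ 0 → t ≠ 0 →
      ev φ (Ideal.span {s * t}) = ev φ (Ideal.span {s}) * ev φ (Ideal.span {t}) := by
    intro s t hs ht
    rw [← Ideal.span_singleton_mul_span_singleton]
    refine e2 φ _ _ ?_ ?_
    · rw [Ne, Ideal.span_singleton_eq_bot]; exact hs
    · rw [Ne, Ideal.span_singleton_eq_bot]; exact ht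
  refine ⟨N₁ + N₂, by omega, fun x hx X hX => ?_⟩
  obtain ⟨hx0, hxt, hxc⟩ := hx
  have hxv : x ∉ v.asIdeal := by
    intro h
    have h1 : (X : 𝓞 F ⧸ v.asIdeal) = 0 := by rw [hX]; exact Ideal.Quotient.eq_zero_iff_mem.mpr h
    have := v.isMaximal
    exact X.ne_zero h1
  -- y
  set N : ℕ := N₁ + N₂ + M with hN
  obtain ⟨y, hy0, hyc, hyt⟩ := hAPX F (insert v (B'' ∪ Sn)) N (fun w => if w = v then x else 1)
    (fun _ => 1) (fun _ => one_ne_zero)
  have hyT : TotPos ((y : 𝓞 F) : F) := by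
    intro σ
    have := hyt σ
    rwa [one_mul] at this
  have hyv : y - x ∈ v.asIdeal ^ N := by
    have h1 := hyc v (Finset.mem_insert_self _ _)
    rwa [if_pos rfl] at h1
  have hyw : ∀ w ∈ B'' ∪ Sn, y - 1 ∈ w.asIdeal ^ N := by
    intro w hw
    have h1 := hyc w (Finset.mem_insert_of_mem hw)
    have hwv : w ≠ v := by
      rintro rfl
      rcases Finset.mem_union.mp hw with h | h
      · exact hvB'' h
      · exact hvSn h
    rwa [if_neg hwv] at h1
  have hNpos : N ≠ 0 := by omega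
  have hyx : y - x ∈ v.asIdeal := Ideal.pow_le_self hNpos hyv
  have hyv' : y ∉ v.asIdeal := by
    intro h
    apply hxv
    have h1 := sub_mem h hyx
    rwa [sub_sub_cancel] at h1
  have hy1 : ∀ w ∈ B'' ∪ Sn, y - 1 ∈ w.asIdeal := fun w hw => Ideal.pow_le_self hNpos (hyw w hw)
  have hnot1 : ∀ w : Pl F, y - 1 ∈ w.asIdeal → y ∉ w.asIdeal := by
    intro w h1 h2
    have h4 : (1 : 𝓞 F) ∈ w.asIdeal := by
      have := sub_mem h2 h1
      simpa using this
    exact w.isPrime.ne_top ((Ideal.eq_top_iff_one _).mpr h4)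
  -- z
  obtain ⟨a, ha⟩ := exists_inv v N x hxv
  obtain ⟨z, hz0, hzc, hzt⟩ := hAPX F (insert v B) N (fun w => if w = v then a else 1)
    (fun _ => 1) (fun _ => one_ne_zero)
  have hzT : TotPos ((z : 𝓞 F) : F) := by
    intro σ
    have := hzt σ
    rwa [one_mul] at this
  have hzv : z * x - 1 ∈ v.asIdeal ^ N := by
    have h1 := hzc v (Finset.mem_insert_self _ _)
    rw [if_pos rfl] at h1
    have h3 : z * x - 1 = (z - a) * x + (a * x - 1) := by ring
    rw [h3]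
    exact add_mem (Ideal.mul_mem_right _ _ h1) ha
  have hzw : ∀ w ∈ B, w ≠ v → z - 1 ∈ w.asIdeal ^ N := by
    intro w hw hwv
    have h1 := hzc w (Finset.mem_insert_of_mem hw)
    rwa [if_neg hwv] at h1
  have hray1 : Ray B N₂ (z * x) := by
    refine ⟨mul_ne_zero hz0 hx0, totPos_mul z x hzT hxt, fun w hw => ?_⟩
    by_cases hwv : w = v
    · subst hwv
      exact Ideal.pow_le_pow_right (by omega) hzv
    · have h1 := Ideal.pow_le_pow_right (I := w.asIdeal) (show N₂ ≤ N by omega) (hzw w hw hwv)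
      have h2 := Ideal.pow_le_pow_right (I := w.asIdeal) (show N₂ ≤ N₁ + N₂ by omega)
        (hxc w (Finset.mem_erase.mpr ⟨hwv, hw⟩))
      have h3 : z * x - 1 = (z - 1) * x + (x - 1) := by ring
      rw [h3]
      exact add_mem (Ideal.mul_mem_right _ _ h1) h2
  have hray2 : Ray B N₂ (z * y) := by
    refine ⟨mul_ne_zero hz0 hy0, totPos_mul z y hzT hyT, fun w hw => ?_⟩
    by_cases hwv : w = v
    · subst hwv
      have h3 : z * y - 1 = z * (y - x) + (z * x - 1) := by ring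
      refine Ideal.pow_le_pow_right (show N₂ ≤ N by omega) ?_
      rw [h3]
      exact add_mem (Ideal.mul_mem_left _ _ hyv) hzv
    · have h1 := Ideal.pow_le_pow_right (I := w.asIdeal) (show N₂ ≤ N by omega) (hzw w hw hwv)
      have hwB : w ∈ B'' ∪ Sn := Finset.mem_union_left _
        (Finset.mem_erase.mpr ⟨hwv, Finset.mem_union_left _ hw⟩)
      have h2 := Ideal.pow_le_pow_right (I := w.asIdeal) (show N₂ ≤ N by omega) (hyw w hwB)
      have h3 : z * y - 1 = (z - 1) * y + (y - 1) := by ring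
      rw [h3]
      exact add_mem (Ideal.mul_mem_right _ _ h1) h2
  have hxy : ev φ (Ideal.span {x}) = ev φ (Ideal.span {y}) := by
    have h1 := hR₂ _ hray1
    have h2 := hR₂ _ hray2
    rw [hspan _ _ hz0 hx0] at h1
    rw [hspan _ _ hz0 hy0, ← h1] at h2
    exact (mul_left_cancel h2).symm
  -- the reciprocity law for η
  have hray3 : Ray B'' N₁ y := by
    refine ⟨hy0, hyT, fun w hw => ?_⟩
    exact Ideal.pow_le_pow_right (by omega) (hyw w (Finset.mem_union_left _ hw))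
  have h1 := hR₁ _ hray3
  have h2 : ev φ' (Ideal.span {y}) = ev (fun w => φ w * g (sy n α w)) (Ideal.span {y}) := by
    refine e5 _ _ _ fun w hw => ?_
    rw [Ideal.span_singleton_le_iff_mem] at hw
    have hwB : w ∉ B'' := fun h => hnot1 w (hy1 w (Finset.mem_union_left _ h)) hw
    have hwv : w ≠ v := fun h3 => hyv' (h3 ▸ hw)
    simp only [φ', if_neg hwv, if_neg hwB]
  have e6' := (hEV F (𝓞 F)ˣ).2.2.2.2.2.1 A g (sy n α) (Ideal.span {y})
  rw [h2, e4, e6'] at h1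
  have hαw : ∀ w : Pl F, α ∈ w.asIdeal → w ≠ v → w ∈ B'' := by
    intro w hw hwv
    refine Finset.mem_erase.mpr ⟨hwv, Finset.mem_union_right _ ?_⟩
    rw [hSα]
    exact Ideal.mul_mem_left _ _ hw
  have hyn : y - 1 ∈ Ideal.span {(n : 𝓞 F)} ^ 3 := by
    refine hM' _ fun w hw => ?_
    exact Ideal.pow_le_pow_right (by omega) (hyw w (Finset.mem_union_right _ hw))
  have h3 := hPRL F n hrt α y hα0 hy0 hαT hyT hαn hyn (by
    intro w hw
    by_cases hwv : w = v
    · subst hwv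
      exact hyv'
    · exact hnot1 w (hy1 w (Finset.mem_union_left _ (hαw w hw hwv))))
  obtain ⟨s1, s2, s3, s4, s5⟩ := hSYB F n hrt
  have hsy1 : ∀ w : Pl F, sy n (1 : 𝓞 F) w = 1 := by
    intro w
    have hw1 : (1 : 𝓞 F) ∉ w.asIdeal := fun h => w.isPrime.ne_top ((Ideal.eq_top_iff_one _).mpr h)
    have h4 := s3 1 1 w hw1 hw1
    rw [mul_one] at h4
    exact (mul_eq_left.mp h4.symm)
  obtain ⟨u1, u2, u3, u4, u5, u6, u7⟩ := hEV F (𝓞 F)ˣ
  have h4 : ev (sy n y) (Ideal.span {α}) = sy n y v := by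
    rw [hJ, u2 _ _ _ v.ne_bot hJ0, u3]
    have h5 : ev (sy n y) J = ev (fun w => (1 : (𝓞 F)ˣ →* (𝓞 F)ˣ) (sy n y w)) J := by
      refine u5 _ _ _ fun w hw => ?_
      have hwv : w ≠ v := fun h => hJv (h ▸ hw)
      have hαw' : α ∈ w.asIdeal := by
        have h1 : α ∈ Ideal.span {α} := Ideal.mem_span_singleton_self α
        rw [hJ] at h1
        have h2 : α ∈ J := (Ideal.mul_le_right : v.asIdeal * J ≤ J) h1
        exact hw h2
      have h6 := hy1 w (Finset.mem_union_left _ (hαw w hαw' hwv))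
      rw [s4 y 1 w h6, hsy1 w]
      rfl
    rw [h5, u6]
    exact mul_one _
  have h5 : g (sy n y v) = f X := by
    have h6 : Units.map (Ideal.Quotient.mk v.asIdeal : 𝓞 F →* 𝓞 F ⧸ v.asIdeal) (sy n y v) = X := by
      apply Units.ext
      rw [hX]
      have h7 := (s1 y v hnv hyv').2
      have h8 : (q v - 1) / n = 1 := by
        rw [← hn]
        exact Nat.div_self (Nat.pos_of_ne_zero hn0)
      rw [h8, pow_one] at h7
      have h9 : Ideal.Quotient.mk v.asIdeal ((sy n y v : (𝓞 F)ˣ) : 𝓞 F) =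
          Ideal.Quotient.mk v.asIdeal x := by
        rw [Ideal.Quotient.eq]
        have := add_mem h7 hyx
        rwa [sub_add_sub_cancel] at this
      exact h9
    show f _ = f X
    rw [h6]
  rw [h3, h4, h5] at h1
  rw [hxy]
  exact h1

end Pool.Agent.Helper18.REC
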