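import Pool.Agent.Helper27.REC.StmtsT

/-!
TRN (MP_78e9a5_nt): sets of integral matrices closed under transposition are completely reducible
modulo large primes (integral separability element).   [helper18]
-/

set_option autoImplicit false

open Matrix

namespace REC

namespace TRNx

variable {ι : Type} [Fintype ι] [DecidableEq ι]

omit [DecidableEq ι] in
theorem tr_self (x : Matrix ι ι ℚ) : (xᵀ * x).trace = ∑ j, ∑ i, x i j ^ 2 := by
  simp only [trace, diag_apply, Matrix.mul_apply, transpose_apply, pow_two]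

omit [DecidableEq ι] in
theorem tr_self_pos {x : Matrix ι ι ℚ} (hx : x ≠ 0) : 0 < (xᵀ * x).trace := by
  rw [tr_self]
  have h0 : ∀ j, 0 ≤ ∑ i, x i j ^ 2 := fun j => Finset.sum_nonneg fun i _ => sq_nonneg _
  refine lt_of_le_of_ne (Finset.sum_nonneg fun j _ => h0 j) fun h => hx ?_
  ext i j
  have h1 := (Finset.sum_eq_zero_iff_of_nonneg (fun j _ => h0 j)).1 h.symm j (Finset.mem_univ j)
  have h2 := (Finset.sum_eq_zero_iff_of_nonneg (fun i _ => sq_nonneg _)).1 h1 i (Finset.mem_univ i)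
  exact pow_eq_zero_iff (two_ne_zero) |>.1 h2

/-- the separability idempotent over `ℚ` -/
theorem sepQ (A : Subalgebra ℚ (Matrix ι ι ℚ)) (hT : ∀ x ∈ A, xᵀ ∈ A) :
    ∃ (d : ℕ) (a b : Fin d → Matrix ι ι ℚ), (∀ i, a i ∈ A ∧ b i ∈ A) ∧
      (∀ x ∈ A, ∀ p q r t, ∑ i, (x * a i) p q * b i r t = ∑ i, a i p q * (b i * x) r t) ∧
      ∑ i, a i * b i = 1 := by
  classical
  let B : LinearMap.BilinForm ℚ A := LinearMap.mk₂ ℚ
    (fun u v : A => ((u : Matrix ι ι ℚ)ᵀ * (v : Matrix ι ι ℚ)).trace)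
    (fun u u' v => by simp [add_mul]) (fun c u v => by simp)
    (fun u v v' => by simp [mul_add]) (fun c u v => by simp)
  have hBapp : ∀ u v : A, B u v = ((u : Matrix ι ι ℚ)ᵀ * (v : Matrix ι ι ℚ)).trace :=
    fun u v => rfl
  have hBs : LinearMap.IsSymm B := ⟨fun u v => by
    rw [RingHom.id_apply, hBapp, hBapp, ← trace_transpose, transpose_mul, transpose_transpose]⟩
  obtain ⟨b, hb⟩ := LinearMap.BilinForm.exists_orthogonal_basis hBs
  set m : Fin (Module.finrank ℚ A) → ℚ := fun i => B (b i) (b i) with hm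
  have hmpos : ∀ i, 0 < m i := fun i => tr_self_pos fun h => b.ne_zero i (Subtype.ext h)
  have horth : ∀ i j, i ≠ j → B (b i) (b j) = 0 := fun i j hij => hb hij
  have hexp : ∀ v : A, v = ∑ i, (B (b i) v / m i) • b i := by
    intro v
    conv_lhs => rw [← b.sum_repr v]
    refine Finset.sum_congr rfl fun j _ => ?_
    congr 1
    have h1 : B (b j) v = b.repr v j * m j := by
      conv_lhs => rw [← b.sum_repr v]
      rw [map_sum, Finset.sum_eq_single j]
      · rw [map_smul, smul_eq_mul]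
      · intro i _ hij
        rw [map_smul, horth j i hij.symm, smul_zero]
      · intro h
        exact absurd (Finset.mem_univ j) h
    rw [h1, mul_div_assoc, div_self (hmpos j).ne', mul_one]
  have hexpM : ∀ v ∈ A, v = ∑ i, ((((b i : A) : Matrix ι ι ℚ)ᵀ * v).trace / m i) •
      ((b i : A) : Matrix ι ι ℚ) := by
    intro v hv
    have h1 := congrArg (Subtype.val) (hexp ⟨v, hv⟩)
    simpa [hBapp] using h1
  -- the Casimir identity
  have hcas : ∀ x ∈ A, ∀ p q r t, ∑ i, (m i)⁻¹ * ((x * (b i : Matrix ι ι ℚ)) p q *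
      ((b i : Matrix ι ι ℚ)ᵀ) r t) =
      ∑ i, (m i)⁻¹ * ((b i : Matrix ι ι ℚ) p q * (((b i : Matrix ι ι ℚ)ᵀ * x) r t)) := by
    intro x hx p q r t
    have h1 : ∀ i, (x * (b i : Matrix ι ι ℚ)) p q = ∑ j, ((((b j : A) : Matrix ι ι ℚ)ᵀ *
        (x * (b i : Matrix ι ι ℚ))).trace / m j) * (b j : Matrix ι ι ℚ) p q := by
      intro i
      conv_lhs => rw [hexpM _ (A.mul_mem hx (b i).2)]
      rw [Matrix.sum_apply]
      rfl
    have h2 : ∀ j, ((b j : Matrix ι ι ℚ)ᵀ * x) r t = ∑ i, ((((b j : A) : Matrix ι ι ℚ)ᵀ *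
        (x * (b i : Matrix ι ι ℚ))).trace / m i) * ((b i : Matrix ι ι ℚ)ᵀ) r t := by
      intro j
      have h3 : ((b j : Matrix ι ι ℚ)ᵀ * x) r t = (xᵀ * (b j : Matrix ι ι ℚ)) t r := by
        rw [← transpose_apply (xᵀ * (b j : Matrix ι ι ℚ)), transpose_mul, transpose_transpose]
      rw [h3]
      conv_lhs => rw [hexpM _ (A.mul_mem (hT x hx) (b j).2)]
      rw [Matrix.sum_apply]
      refine Finset.sum_congr rfl fun i _ => ?_
      show _ * (b i : Matrix ι ι ℚ) t r = _ * (b i : Matrix ι ι ℚ) t r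
      rw [← trace_transpose, transpose_mul, transpose_mul, transpose_transpose, transpose_transpose,
        mul_assoc]
    calc ∑ i, (m i)⁻¹ * ((x * (b i : Matrix ι ι ℚ)) p q * ((b i : Matrix ι ι ℚ)ᵀ) r t)
        = ∑ i, ∑ j, (m i)⁻¹ * (m j)⁻¹ * (((b j : A) : Matrix ι ι ℚ)ᵀ *
          (x * (b i : Matrix ι ι ℚ))).trace * ((b j : Matrix ι ι ℚ) p q *
            ((b i : Matrix ι ι ℚ)ᵀ) r t) := by
          refine Finset.sum_congr rfl fun i _ => ?_
          rw [h1 i, Finset.sum_mul, Finset.mul_sum]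
          refine Finset.sum_congr rfl fun j _ => ?_
          ring
      _ = ∑ j, ∑ i, (m i)⁻¹ * (m j)⁻¹ * (((b j : A) : Matrix ι ι ℚ)ᵀ *
          (x * (b i : Matrix ι ι ℚ))).trace * ((b j : Matrix ι ι ℚ) p q *
            ((b i : Matrix ι ι ℚ)ᵀ) r t) := Finset.sum_comm
      _ = ∑ j, (m j)⁻¹ * ((b j : Matrix ι ι ℚ) p q * (((b j : Matrix ι ι ℚ)ᵀ * x) r t)) := by
          refine Finset.sum_congr rfl fun j _ => ?_
          rw [h2 j, Finset.mul_sum, Finset.mul_sum]
          refine Finset.sum_congr rfl fun i _ => ?_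
          ring
  -- the element `z`
  set z : Matrix ι ι ℚ := ∑ i, (m i)⁻¹ • ((b i : Matrix ι ι ℚ) * (b i : Matrix ι ι ℚ)ᵀ) with hz
  have hzA : z ∈ A := A.sum_mem fun i _ => A.smul_mem (A.mul_mem (b i).2 (hT _ (b i).2)) _
  have hzc : ∀ x ∈ A, x * z = z * x := by
    intro x hx
    ext p t
    have h1 : (x * z) p t = ∑ q, ∑ i, (m i)⁻¹ * ((x * (b i : Matrix ι ι ℚ)) p q *
        ((b i : Matrix ι ι ℚ)ᵀ) q t) := by
      rw [Finset.sum_comm, hz, Finset.mul_sum, Matrix.sum_apply]
      refine Finset.sum_congr rfl fun i _ => ?_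
      rw [Matrix.mul_smul, ← mul_assoc, Matrix.smul_apply, Matrix.mul_apply, smul_eq_mul,
        Finset.mul_sum]
    have h2 : (z * x) p t = ∑ q, ∑ i, (m i)⁻¹ * ((b i : Matrix ι ι ℚ) p q *
        (((b i : Matrix ι ι ℚ)ᵀ * x) q t)) := by
      rw [Finset.sum_comm, hz, Finset.sum_mul, Matrix.sum_apply]
      refine Finset.sum_congr rfl fun i _ => ?_
      rw [Matrix.smul_mul, mul_assoc, Matrix.smul_apply, Matrix.mul_apply, smul_eq_mul,
        Finset.mul_sum]
    rw [h1, h2]
    exact Finset.sum_congr rfl fun q _ => hcas x hx p q q t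
  have hzinj : ∀ x : Matrix ι ι ℚ, z * x = 0 → x = 0 := by
    intro x hx
    have h1 : ∑ i, (m i)⁻¹ * ((((b i : Matrix ι ι ℚ)ᵀ * x)ᵀ * ((b i : Matrix ι ι ℚ)ᵀ * x)).trace) =
        0 := by
      have h2 : (xᵀ * (z * x)).trace = 0 := by rw [hx, mul_zero, trace_zero]
      rw [← h2, hz, Finset.sum_mul, Finset.mul_sum, trace_sum]
      refine Finset.sum_congr rfl fun i _ => ?_
      rw [Matrix.smul_mul, Matrix.mul_smul, trace_smul, smul_eq_mul, transpose_mul,
        transpose_transpose, mul_assoc, mul_assoc]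
    have h3 : ∀ i, (b i : Matrix ι ι ℚ)ᵀ * x = 0 := by
      intro i
      by_contra hne
      have h4 : ∀ j, 0 ≤ (m j)⁻¹ * ((((b j : Matrix ι ι ℚ)ᵀ * x)ᵀ *
          ((b j : Matrix ι ι ℚ)ᵀ * x)).trace) := by
        intro j
        refine mul_nonneg (inv_nonneg.2 (hmpos j).le) ?_
        rw [tr_self]
        exact Finset.sum_nonneg fun _ _ => Finset.sum_nonneg fun _ _ => sq_nonneg _
      have h5 := (Finset.sum_eq_zero_iff_of_nonneg (fun j _ => h4 j)).1 h1 i (Finset.mem_univ i)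
      have h6 := mul_pos (inv_pos.2 (hmpos i)) (tr_self_pos hne)
      rw [h5] at h6
      exact lt_irrefl _ h6
    have h7 : (1 : Matrix ι ι ℚ) = ∑ i, ((((b i : A) : Matrix ι ι ℚ)ᵀ * 1).trace / m i) •
      ((b i : A) : Matrix ι ι ℚ)ᵀ := by
      have h8 := congrArg transpose (hexpM 1 A.one_mem)
      rw [transpose_one, transpose_sum] at h8
      simpa only [transpose_smul] using h8
    rw [← one_mul x, h7, Finset.sum_mul]
    refine Finset.sum_eq_zero fun i _ => ?_
    rw [Matrix.smul_mul, h3 i, smul_zero]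
  -- the inverse of `z`
  obtain ⟨z', hz'A, hzz'⟩ : ∃ z' ∈ A, z * z' = 1 := by
    let L : A →ₗ[ℚ] A := LinearMap.mulLeft ℚ ⟨z, hzA⟩
    have hL : Function.Injective L := by
      rw [injective_iff_map_eq_zero]
      intro x hx
      exact Subtype.ext (hzinj x (congrArg Subtype.val hx))
    obtain ⟨z', hz'⟩ := (LinearMap.injective_iff_surjective.1 hL) 1
    exact ⟨z', z'.2, congrArg Subtype.val hz'⟩
  have hz'z : z' * z = 1 := by rw [hzc z' hz'A]; exact hzz'
  have hz'c : ∀ x ∈ A, x * z' = z' * x := by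
    intro x hx
    calc x * z' = z' * z * (x * z') := by rw [hz'z, one_mul]
      _ = z' * (z * x) * z' := by simp only [mul_assoc]
      _ = z' * (x * z) * z' := by rw [hzc x hx]
      _ = z' * x * (z * z') := by simp only [mul_assoc]
      _ = z' * x := by rw [hzz', mul_one]
  refine ⟨_, fun i => (m i)⁻¹ • (b i : Matrix ι ι ℚ), fun i => (b i : Matrix ι ι ℚ)ᵀ * z', ?_, ?_, ?_⟩
  · exact fun i => ⟨A.smul_mem (b i).2 _, A.mul_mem (hT _ (b i).2) hz'A⟩
  · intro x hx p q r t
    have h1 : ∀ i, (x * ((m i)⁻¹ • (b i : Matrix ι ι ℚ))) p q * (((b i : Matrix ι ι ℚ)ᵀ * z') r t) =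
        ∑ s, ((m i)⁻¹ * ((x * (b i : Matrix ι ι ℚ)) p q * ((b i : Matrix ι ι ℚ)ᵀ) r s)) * z' s t := by
      intro i
      rw [Matrix.mul_smul, Matrix.smul_apply, Matrix.mul_apply (M := (b i : Matrix ι ι ℚ)ᵀ),
        Finset.mul_sum]
      refine Finset.sum_congr rfl fun s _ => ?_
      rw [smul_eq_mul]
      ring
    have h2 : ∀ i, ((m i)⁻¹ • (b i : Matrix ι ι ℚ)) p q * (((b i : Matrix ι ι ℚ)ᵀ * z' * x) r t) =
        ∑ s, ((m i)⁻¹ * ((b i : Matrix ι ι ℚ) p q * (((b i : Matrix ι ι ℚ)ᵀ * x) r s))) *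
          z' s t := by
      intro i
      rw [mul_assoc, ← hz'c x hx, ← mul_assoc, Matrix.smul_apply,
        Matrix.mul_apply (M := (b i : Matrix ι ι ℚ)ᵀ * x), Finset.mul_sum]
      refine Finset.sum_congr rfl fun s _ => ?_
      rw [smul_eq_mul]
      ring
    rw [Finset.sum_congr rfl fun i _ => h1 i, Finset.sum_congr rfl fun i _ => h2 i,
      Finset.sum_comm, Finset.sum_comm (s := Finset.univ (α := Fin _))]
    refine Finset.sum_congr rfl fun s _ => ?_
    rw [← Finset.sum_mul, ← Finset.sum_mul, hcas x hx p q r s]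
  · rw [← hzz', hz, Finset.sum_mul]
    refine Finset.sum_congr rfl fun i _ => ?_
    rw [← mul_assoc, Matrix.smul_mul]


omit [Fintype ι] [DecidableEq ι] in
theorem map_zs {R : Type} [CommRing R] (n : ℤ) (y : Matrix ι ι ℤ) :
    (n • y).map (Int.castRingHom R) = (n : R) • y.map (Int.castRingHom R) := by
  ext i j
  rw [Matrix.map_apply, Matrix.smul_apply, smul_eq_mul, map_mul]
  rfl

omit [Fintype ι] in
theorem map_zs_one {R : Type} [CommRing R] (n : ℤ) :
    (n • (1 : Matrix ι ι ℤ)).map (Int.castRingHom R) = (n : R) • (1 : Matrix ι ι R) := by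
  rw [map_zs, Matrix.map_one _ (map_zero _) (map_one _)]

/-- denominators -/
theorem clear {k : ℕ} (E : Fin k → Matrix ι ι ℤ) : ∀ x ∈ Algebra.adjoin ℚ (Set.range fun j =>
    (E j).map (Int.castRingHom ℚ)), ∃ N : ℕ, 0 < N ∧ ∃ y ∈ Algebra.adjoin ℤ (Set.range E),
      (N : ℚ) • x = y.map (Int.castRingHom ℚ) := by
  intro x hx
  induction hx using Algebra.adjoin_induction with
  | mem x hx =>
    obtain ⟨j, rfl⟩ := hx
    exact ⟨1, one_pos, E j, Algebra.subset_adjoin ⟨j, rfl⟩, by simp⟩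
  | algebraMap r =>
    refine ⟨r.den, r.den_pos, (algebraMap ℤ (Matrix ι ι ℤ) r.num), Subalgebra.algebraMap_mem _ _, ?_⟩
    ext i j
    rw [Matrix.smul_apply, Matrix.map_apply, Matrix.algebraMap_matrix_apply,
      Matrix.algebraMap_matrix_apply]
    by_cases h : i = j
    · simp [h, Rat.mul_den_eq_num, mul_comm]
    · simp [h]
  | add x x' _ _ hx hx' =>
    obtain ⟨N, hN, y, hy, e⟩ := hx
    obtain ⟨N', hN', y', hy', e'⟩ := hx'
    refine ⟨N * N', Nat.mul_pos hN hN', (N' : ℤ) • y + (N : ℤ) • y', ?_, ?_⟩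
    · exact Subalgebra.add_mem _ (Subalgebra.smul_mem _ hy _) (Subalgebra.smul_mem _ hy' _)
    · rw [Matrix.map_add _ (map_add _)]
      have h1 : ((N' : ℤ) • y).map (Int.castRingHom ℚ) = (N' : ℚ) • y.map (Int.castRingHom ℚ) := by
        rw [map_zs, Int.cast_natCast]
      have h2 : ((N : ℤ) • y').map (Int.castRingHom ℚ) = (N : ℚ) • y'.map (Int.castRingHom ℚ) := by
        rw [map_zs, Int.cast_natCast]
      rw [h1, h2, ← e, ← e', smul_smul, smul_smul, smul_add, Nat.cast_mul, mul_comm (N' : ℚ)]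
  | mul x x' _ _ hx hx' =>
    obtain ⟨N, hN, y, hy, e⟩ := hx
    obtain ⟨N', hN', y', hy', e'⟩ := hx'
    refine ⟨N * N', Nat.mul_pos hN hN', y * y', Subalgebra.mul_mem _ hy hy', ?_⟩
    rw [Matrix.map_mul, ← e, ← e', Matrix.smul_mul, Matrix.mul_smul, smul_smul, Nat.cast_mul]

theorem clearF {k : ℕ} (E : Fin k → Matrix ι ι ℤ) (d : ℕ) (a : Fin d → Matrix ι ι ℚ)
    (ha : ∀ i, a i ∈ Algebra.adjoin ℚ (Set.range fun j => (E j).map (Int.castRingHom ℚ))) :
    ∃ N : ℕ, 0 < N ∧ ∃ y : Fin d → Matrix ι ι ℤ, (∀ i, y i ∈ Algebra.adjoin ℤ (Set.range E)) ∧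
      ∀ i, (N : ℚ) • a i = (y i).map (Int.castRingHom ℚ) := by
  choose N hN y hy e using fun i => clear E (a i) (ha i)
  refine ⟨∏ i, N i, Finset.prod_pos fun i _ => hN i, ?_⟩
  have h1 : ∀ i, ∃ c, ∏ j, N j = N i * c := fun i => Finset.dvd_prod_of_mem N (Finset.mem_univ i)
  choose c hc using h1
  refine ⟨fun i => (c i : ℤ) • y i, fun i => Subalgebra.smul_mem _ (hy i) _, fun i => ?_⟩
  have h1 : ((c i : ℤ) • y i).map (Int.castRingHom ℚ) = (c i : ℚ) • (y i).map (Int.castRingHom ℚ) := by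
    rw [map_zs, Int.cast_natCast]
  rw [h1, hc i, ← e i, smul_smul, Nat.cast_mul, mul_comm (c i : ℚ)]

/-- the integral separability element -/
theorem sepZ {k : ℕ} (E : Fin k → Matrix ι ι ℤ)
    (hE : ∀ i, ((E i).transpose.map (Int.castRingHom ℚ)) ∈
      Submodule.span ℚ (Set.range fun j => (E j).map (Int.castRingHom ℚ))) :
    ∃ (d N : ℕ) (a b : Fin d → Matrix ι ι ℤ), 0 < N ∧
      (∀ i, a i ∈ Algebra.adjoin ℤ (Set.range E) ∧ b i ∈ Algebra.adjoin ℤ (Set.range E)) ∧
      (∀ j p q r t, ∑ i, (E j * a i) p q * b i r t = ∑ i, a i p q * (b i * E j) r t) ∧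
      ∑ i, a i * b i = (N : ℤ) • 1 := by
  set A := Algebra.adjoin ℚ (Set.range fun j => (E j).map (Int.castRingHom ℚ)) with hA
  have hT : ∀ x ∈ A, xᵀ ∈ A := by
    intro x hx
    induction hx using Algebra.adjoin_induction with
    | mem x hx =>
      obtain ⟨j, rfl⟩ := hx
      have h1 : Submodule.span ℚ (Set.range fun j => (E j).map (Int.castRingHom ℚ)) ≤
          Subalgebra.toSubmodule A := Submodule.span_le.2 Algebra.subset_adjoin
      exact h1 (hE j)
    | algebraMap r =>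
      have h1 : (algebraMap ℚ (Matrix ι ι ℚ) r)ᵀ = algebraMap ℚ (Matrix ι ι ℚ) r := by
        rw [Matrix.algebraMap_eq_diagonal, diagonal_transpose]
      rw [h1]
      exact Subalgebra.algebraMap_mem _ _
    | add x x' _ _ hx hx' =>
      rw [transpose_add]
      exact A.add_mem hx hx'
    | mul x x' _ _ hx hx' =>
      rw [transpose_mul]
      exact A.mul_mem hx' hx
  obtain ⟨d, a, b, hab, hcas, hone⟩ := sepQ A hT
  obtain ⟨N, hN, a', ha', ea⟩ := clearF E d a fun i => (hab i).1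
  obtain ⟨N', hN', b', hb', eb⟩ := clearF E d b fun i => (hab i).2
  refine ⟨d, N * N', a', b', Nat.mul_pos hN hN', fun i => ⟨ha' i, hb' i⟩, ?_, ?_⟩
  · intro j p q r t
    have h1 := hcas ((E j).map (Int.castRingHom ℚ)) (Algebra.subset_adjoin ⟨j, rfl⟩) p q r t
    have h2 := congrArg (fun u : ℚ => (N : ℚ) * (N' : ℚ) * u) h1
    simp only [Finset.mul_sum] at h2
    have e1 : ∀ i, (N : ℚ) * (N' : ℚ) * (((E j).map (Int.castRingHom ℚ) * a i) p q * b i r t) =
        ((((E j * a' i) p q * b' i r t : ℤ)) : ℚ) := by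
      intro i
      have h3 : ((E j).map (Int.castRingHom ℚ) * ((N : ℚ) • a i)) p q = ((E j * a' i) p q : ℤ) := by
        rw [ea i, ← Matrix.map_mul]
        rfl
      have h4 : ((N' : ℚ) • b i) r t = (b' i r t : ℤ) := by
        rw [eb i]
        rfl
      rw [Matrix.mul_smul, Matrix.smul_apply, smul_eq_mul] at h3
      rw [Matrix.smul_apply, smul_eq_mul] at h4
      push_cast
      rw [← h3, ← h4]
      ring
    have e2 : ∀ i, (N : ℚ) * (N' : ℚ) * (a i p q * (b i * (E j).map (Int.castRingHom ℚ)) r t) =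
        (((a' i p q * (b' i * E j) r t : ℤ)) : ℚ) := by
      intro i
      have h3 : (((N' : ℚ) • b i) * (E j).map (Int.castRingHom ℚ)) r t = ((b' i * E j) r t : ℤ) := by
        rw [eb i, ← Matrix.map_mul]
        rfl
      have h4 : ((N : ℚ) • a i) p q = (a' i p q : ℤ) := by
        rw [ea i]
        rfl
      rw [Matrix.smul_mul, Matrix.smul_apply, smul_eq_mul] at h3
      rw [Matrix.smul_apply, smul_eq_mul] at h4
      push_cast
      rw [← h3, ← h4]
      ring
    rw [Finset.sum_congr rfl fun i _ => e1 i, Finset.sum_congr rfl fun i _ => e2 i] at h2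
    exact_mod_cast h2
  · have h1 : (∑ i, a' i * b' i).map (Int.castRingHom ℚ) =
        (((N * N' : ℕ) : ℤ) • (1 : Matrix ι ι ℤ)).map (Int.castRingHom ℚ) := by
      have h2 : (∑ i, a' i * b' i).map (Int.castRingHom ℚ) =
          ∑ i, (a' i).map (Int.castRingHom ℚ) * (b' i).map (Int.castRingHom ℚ) := by
        have h3 := map_sum ((Int.castRingHom ℚ).mapMatrix (m := ι)) (fun i => a' i * b' i) Finset.univ
        rw [RingHom.mapMatrix_apply] at h3
        rw [h3]
        refine Finset.sum_congr rfl fun i _ => ?_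
        rw [RingHom.mapMatrix_apply, Matrix.map_mul]
      rw [h2]
      have h4 : ∀ i, (a' i).map (Int.castRingHom ℚ) * (b' i).map (Int.castRingHom ℚ) =
          ((N : ℚ) * (N' : ℚ)) • (a i * b i) := by
        intro i
        rw [← ea i, ← eb i, Matrix.smul_mul, Matrix.mul_smul, smul_smul]
      rw [Finset.sum_congr rfl fun i _ => h4 i, ← Finset.smul_sum, hone, map_zs_one]
      push_cast
      rfl
    exact Matrix.map_injective Int.cast_injective h1

end TRNx

open TRNx in
theorem TRN : ST_TRN := by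
  classical
  intro ι _ k E hE
  obtain ⟨d, N, a, b, hN, hab, hcas, hone⟩ := sepZ E hE
  refine ⟨N, fun l K _ hl hlN hlK W hW => ?_⟩
  have hNK : (N : K) ≠ 0 := by
    intro h
    have hcop : Nat.Coprime l N := (Nat.Prime.coprime_iff_not_dvd hl).2 fun hd =>
      absurd (Nat.le_of_dvd hN hd) (not_le.2 hlN)
    have h1 := Nat.gcd_eq_gcd_ab l N
    rw [Nat.Coprime] at hcop
    rw [hcop] at h1
    have h2 := congrArg (Int.cast : ℤ → K) h1
    push_cast at h2
    rw [hlK, h, zero_mul, zero_mul, add_zero] at h2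
    exact one_ne_zero h2
  -- the projection
  obtain ⟨g, hg⟩ := LinearMap.exists_leftInverse_of_injective W.subtype (LinearMap.ker_eq_bot.2
    Subtype.val_injective)
  set P : Matrix ι ι K := LinearMap.toMatrix' (W.subtype ∘ₗ g) with hP
  have hPv : ∀ v, P *ᵥ v = (g v : ι → K) := by
    intro v
    rw [← Matrix.toLin'_apply, hP, Matrix.toLin'_toMatrix']
    rfl
  have hPW : ∀ v ∈ W, P *ᵥ v = v := by
    intro v hv
    rw [hPv]
    have h1 := congrArg (fun f : W →ₗ[K] W => (f ⟨v, hv⟩ : ι → K)) hg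
    exact h1
  have hst : ∀ y ∈ Algebra.adjoin ℤ (Set.range E), ∀ v ∈ W,
      (y.map (Int.castRingHom K)) *ᵥ v ∈ W := by
    intro y hy
    induction hy using Algebra.adjoin_induction with
    | mem x hx =>
      obtain ⟨j, rfl⟩ := hx
      exact fun v hv => hW j v hv
    | algebraMap r =>
      intro v hv
      have h1 : (algebraMap ℤ (Matrix ι ι ℤ) r).map (Int.castRingHom K) = (r : K) • 1 := by
        rw [Algebra.algebraMap_eq_smul_one, map_zs_one]
      rw [h1, Matrix.smul_mulVec, Matrix.one_mulVec]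
      exact W.smul_mem _ hv
    | add x x' _ _ hx hx' =>
      intro v hv
      rw [Matrix.map_add _ (map_add _), Matrix.add_mulVec]
      exact W.add_mem (hx v hv) (hx' v hv)
    | mul x x' _ _ hx hx' =>
      intro v hv
      rw [Matrix.map_mul, ← Matrix.mulVec_mulVec]
      exact hx _ (hx' v hv)
  set a' : Fin d → Matrix ι ι K := fun i => (a i).map (Int.castRingHom K) with ha'
  set b' : Fin d → Matrix ι ι K := fun i => (b i).map (Int.castRingHom K) with hb'
  refine ⟨(N : K)⁻¹ • ∑ i, a' i * P * b' i, ?_, ?_, ?_⟩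
  · intro j
    set E' := (E j).map (Int.castRingHom K) with hE'
    have hc : ∀ p q r t, ∑ i, (E' * a' i) p q * b' i r t = ∑ i, a' i p q * (b' i * E') r t := by
      intro p q r t
      have h1 := congrArg (Int.castRingHom K) (hcas j p q r t)
      rw [map_sum, map_sum] at h1
      have e1 : ∀ i, (Int.castRingHom K) ((E j * a i) p q * b i r t) = (E' * a' i) p q * b' i r t := by
        intro i
        rw [map_mul, hE', ha', ← Matrix.map_mul]
        rfl
      have e2 : ∀ i, (Int.castRingHom K) (a i p q * (b i * E j) r t) = a' i p q * (b' i * E') r t := by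
        intro i
        rw [map_mul, hE', hb', ← Matrix.map_mul]
        rfl
      rw [Finset.sum_congr rfl fun i _ => e1 i, Finset.sum_congr rfl fun i _ => e2 i] at h1
      exact h1
    rw [Matrix.smul_mul, Matrix.mul_smul, Finset.sum_mul, Finset.mul_sum]
    congr 1
    ext p t
    rw [Matrix.sum_apply, Matrix.sum_apply]
    have e1 : ∀ i, (a' i * P * b' i * E') p t = ∑ q, ∑ r, P q r * (a' i p q * (b' i * E') r t) := by
      intro i
      rw [mul_assoc, Matrix.mul_apply]
      rw [Finset.sum_comm]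
      refine Finset.sum_congr rfl fun r _ => ?_
      rw [Matrix.mul_apply, Finset.sum_mul]
      refine Finset.sum_congr rfl fun q _ => ?_
      ring
    have e2 : ∀ i, (E' * (a' i * P * b' i)) p t = ∑ q, ∑ r, P q r * ((E' * a' i) p q * b' i r t) := by
      intro i
      rw [← mul_assoc, ← mul_assoc, Matrix.mul_apply]
      rw [Finset.sum_comm]
      refine Finset.sum_congr rfl fun r _ => ?_
      rw [Matrix.mul_apply, Finset.sum_mul]
      refine Finset.sum_congr rfl fun q _ => ?_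
      ring
    rw [Finset.sum_congr rfl fun i _ => e1 i, Finset.sum_congr rfl fun i _ => e2 i,
      Finset.sum_comm, Finset.sum_comm (s := Finset.univ (α := Fin d))]
    refine Finset.sum_congr rfl fun q _ => ?_
    rw [Finset.sum_comm, Finset.sum_comm (s := Finset.univ (α := Fin d))]
    refine Finset.sum_congr rfl fun r _ => ?_
    rw [← Finset.mul_sum, ← Finset.mul_sum, hc p q r t]
  · intro x
    rw [Matrix.smul_mulVec, Matrix.sum_mulVec]
    refine W.smul_mem _ (W.sum_mem fun i _ => ?_)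
    rw [← Matrix.mulVec_mulVec, ← Matrix.mulVec_mulVec, hPv]
    exact hst _ (hab i).1 _ (g _).2
  · intro x hx
    rw [Matrix.smul_mulVec, Matrix.sum_mulVec]
    have h1 : ∀ i, (a' i * P * b' i) *ᵥ x = (a' i * b' i) *ᵥ x := by
      intro i
      rw [← Matrix.mulVec_mulVec, ← Matrix.mulVec_mulVec, hPW _ (hst _ (hab i).2 x hx),
        Matrix.mulVec_mulVec]
    rw [Finset.sum_congr rfl fun i _ => h1 i, ← Matrix.sum_mulVec]
    have h2 : ∑ i, a' i * b' i = (N : K) • (1 : Matrix ι ι K) := by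
      have h3 := congrArg ((Int.castRingHom K).mapMatrix (m := ι)) hone
      rw [map_sum] at h3
      have h4 : ∀ i, (Int.castRingHom K).mapMatrix (a i * b i) = a' i * b' i := by
        intro i
        rw [map_mul]
        rfl
      rw [Finset.sum_congr rfl fun i _ => h4 i] at h3
      rw [h3, RingHom.mapMatrix_apply, map_zs_one, Int.cast_natCast]
    rw [h2, Matrix.smul_mulVec, Matrix.one_mulVec, smul_smul, inv_mul_cancel₀ hNK, one_smul]

end REC
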